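import Mathlib
import Pool.Agent.helper49.QA.Qf
import Pool.Agent.helper49.QA.EkBasic
import Pool.Agent.helper90.MF.TAout
import Pool.Agent.helper5.AS.ThmA

/-!
# The quantised family of the symmetrised minors
-/

set_option autoImplicit false
set_option linter.unusedSectionVars false

namespace Pool.Agent.helper90.QTA

open Pool.Agent.helper5.AS Finset Polynomial Pool.Agent.helper49.QA Pool.Agent.helper90.MF

attribute [local instance 100] LieRing.ofAssociativeRing

section Word

variable {K : Type*} [Field K] {L : Type*} [LieRing L] [LieAlgebra K L]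

/-- the ordered product of the factors `x + t ξ(x)` -/
noncomputable def WU (ξ : L →ₗ[K] K) (l : List L) : (Ue K L)[X] :=
  (l.map fun x => C (ιU K L x) + C (algebraMap K (Ue K L) (ξ x)) * X).prod

/-- the product of the factors `x + t ξ(x)` in the symmetric algebra -/
noncomputable def WS (ξ : L →ₗ[K] K) (l : List L) : (Sy K L)[X] :=
  shift ξ (l.map fun x => ιS K L x).prod

theorem WU_nil (ξ : L →ₗ[K] K) : WU ξ ([] : List L) = 1 := by
  rw [WU, List.map_nil, List.prod_nil]

theorem WU_cons (ξ : L →ₗ[K] K) (x : L) (l : List L) :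
    WU ξ (x :: l) = (C (ιU K L x) + C (algebraMap K (Ue K L) (ξ x)) * X) * WU ξ l := by
  rw [WU, List.map_cons, List.prod_cons, WU]

theorem WS_nil (ξ : L →ₗ[K] K) : WS ξ ([] : List L) = 1 := by
  rw [WS, List.map_nil, List.prod_nil, map_one]

theorem WS_cons (ξ : L →ₗ[K] K) (x : L) (l : List L) :
    WS ξ (x :: l) = (C (ιS K L x) + C (algebraMap K (Sy K L) (ξ x)) * X) * WS ξ l := by
  rw [WS, List.map_cons, List.prod_cons, map_mul, WS, shift_ι]

theorem coeff_factor {R : Type*} [Ring R] [Algebra K R] (a : R) (c : K) (P : R[X]) (m : ℕ) :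
    ((C a + C (algebraMap K R c) * X) * P).coeff m =
      a * P.coeff m + (if m = 0 then 0 else c • P.coeff (m - 1)) := by
  rw [add_mul, coeff_add, coeff_C_mul, mul_assoc, coeff_C_mul]
  congr 1
  cases m with
  | zero => rw [X_mul, coeff_mul_X_zero, mul_zero, if_pos rfl]
  | succ m =>
    rw [X_mul, coeff_mul_X, if_neg (Nat.succ_ne_zero m), Nat.add_sub_cancel, Algebra.smul_def]

theorem w_zero (ξ : L →ₗ[K] K) (l : List L) (m : ℕ) (hm : l.length < m) :
    (WU ξ l).coeff m = 0 ∧ (WS ξ l).coeff m = 0 := by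
  induction l generalizing m with
  | nil =>
    rw [List.length_nil] at hm
    rw [WU_nil, WS_nil, coeff_one, coeff_one, if_neg (by omega), if_neg (by omega)]
    exact ⟨rfl, rfl⟩
  | cons x l ih =>
    rw [List.length_cons] at hm
    obtain ⟨h1, h2⟩ := ih m (by omega)
    obtain ⟨h3, h4⟩ := ih (m - 1) (by omega)
    rw [WU_cons, WS_cons, coeff_factor, coeff_factor, h1, h2, h3, h4, mul_zero, mul_zero,
      smul_zero, smul_zero]
    simp

theorem w_symb (ξ : L →ₗ[K] K) (l : List L) (m : ℕ) (hm : m ≤ l.length) :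
    IsSymbol (l.length - m) ((WS ξ l).coeff m) ((WU ξ l).coeff m) := by
  induction l generalizing m with
  | nil =>
    rw [List.length_nil] at hm ⊢
    obtain rfl : m = 0 := by omega
    rw [WU_nil, WS_nil, coeff_one_zero, coeff_one_zero]
    exact isSymbol_one
  | cons x l ih =>
    rw [List.length_cons] at hm ⊢
    rw [WU_cons, WS_cons, coeff_factor, coeff_factor]
    refine IsSymbol.add ?_ ?_
    · by_cases h : m ≤ l.length
      · have h1 := (isSymbol_ι (𝕜 := K) x).mul (ih m h)
        have h2 : 1 + (l.length - m) = l.length + 1 - m := by omega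
        rwa [h2] at h1
      · obtain ⟨h1, h2⟩ := w_zero ξ l m (by omega)
        rw [h1, h2, mul_zero, mul_zero]
        exact IsSymbol.of_low (zero_mem _)
    · by_cases h : m = 0
      · rw [if_pos h, if_pos h]
        exact IsSymbol.of_low (zero_mem _)
      · rw [if_neg h, if_neg h]
        have h1 := (ih (m - 1) (by omega)).smul (ξ x)
        have h2 : l.length - (m - 1) = l.length + 1 - m := by omega
        rwa [h2] at h1

/-- polynomial functions with values in an algebra -/
def PolyIn (K : Type*) [Field K] {R : Type*} [AddCommGroup R] [Module K R] (N : ℕ)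
    (f : K → R) : Prop :=
  ∃ w : ℕ → R, ∀ s : K, f s = ∑ j ∈ range N, s ^ j • w j

section PolyIn

variable {R : Type*} [Ring R] [Algebra K R]

theorem PolyIn.zero (N : ℕ) : PolyIn K N (fun _ => (0 : R)) :=
  ⟨fun _ => 0, fun s => by simp⟩

theorem PolyIn.const {N : ℕ} (hN : 0 < N) (a : R) : PolyIn K N (fun _ => a) := by
  refine ⟨fun j => if j = 0 then a else 0, fun s => ?_⟩
  rw [Finset.sum_eq_single 0]
  · simp
  · intro j _ hj
    beta_reduce
    rw [if_neg hj, smul_zero]
  · intro h
    exact absurd (mem_range.2 hN) h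

theorem PolyIn.add {N : ℕ} {f g : K → R} (hf : PolyIn K N f) (hg : PolyIn K N g) :
    PolyIn K N (fun s => f s + g s) := by
  obtain ⟨w, hw⟩ := hf
  obtain ⟨w', hw'⟩ := hg
  refine ⟨fun j => w j + w' j, fun s => ?_⟩
  simp only [hw, hw', smul_add, Finset.sum_add_distrib]

theorem PolyIn.map {N : ℕ} {f : K → R} (hf : PolyIn K N f) {R' : Type*} [AddCommGroup R']
    [Module K R'] (φ : R →ₗ[K] R') : PolyIn K N (fun s => φ (f s)) := by
  obtain ⟨w, hw⟩ := hf
  refine ⟨fun j => φ (w j), fun s => ?_⟩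
  simp only [hw, map_sum, map_smul]

theorem PolyIn.mul_left {N : ℕ} {f : K → R} (hf : PolyIn K N f) (a : R) :
    PolyIn K N (fun s => a * f s) := hf.map (LinearMap.mulLeft K a)

theorem PolyIn.smul {N : ℕ} {f : K → R} (hf : PolyIn K N f) (a : K) :
    PolyIn K N (fun s => a • f s) := by
  obtain ⟨w, hw⟩ := hf
  refine ⟨fun j => a • w j, fun s => ?_⟩
  simp only [hw, Finset.smul_sum, smul_comm a]

theorem PolyIn.mono {N M : ℕ} (h : N ≤ M) {f : K → R} (hf : PolyIn K N f) : PolyIn K M f := by
  obtain ⟨w, hw⟩ := hf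
  refine ⟨fun j => if j < N then w j else 0, fun s => ?_⟩
  rw [hw]
  rw [← Finset.sum_subset (Finset.range_mono h)]
  · refine Finset.sum_congr rfl fun j hj => ?_
    beta_reduce
    rw [if_pos (mem_range.1 hj)]
  · intro j _ hj
    rw [mem_range] at hj
    beta_reduce
    rw [if_neg hj, smul_zero]

theorem PolyIn.smulX {N : ℕ} {f : K → R} (hf : PolyIn K N f) :
    PolyIn K (N + 1) (fun s => s • f s) := by
  obtain ⟨w, hw⟩ := hf
  refine ⟨fun j => if j = 0 then 0 else w (j - 1), fun s => ?_⟩
  rw [Finset.sum_range_succ']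
  beta_reduce
  rw [if_pos rfl, smul_zero, add_zero, hw, Finset.smul_sum]
  refine Finset.sum_congr rfl fun j _ => ?_
  rw [if_neg (Nat.succ_ne_zero j), Nat.add_sub_cancel, smul_smul, pow_succ, mul_comm]

theorem PolyIn.sum {N : ℕ} {ι : Type*} (t : Finset ι) {f : ι → K → R}
    (h : ∀ i ∈ t, PolyIn K N (f i)) : PolyIn K N (fun s => ∑ i ∈ t, f i s) := by
  classical
  induction t using Finset.induction_on with
  | empty =>
    simp only [Finset.sum_empty]
    exact PolyIn.zero N
  | insert i t hi ih =>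
    simp only [Finset.sum_insert hi]
    exact (h i (mem_insert_self i t)).add (ih fun j hj => h j (mem_insert_of_mem hj))

end PolyIn

theorem w_poly (ξ η : L →ₗ[K] K) (l : List L) (m : ℕ) :
    PolyIn K (m + 1) (fun s => (WU (ξ + s • η) l).coeff m) := by
  induction l generalizing m with
  | nil =>
    simp only [WU_nil]
    exact PolyIn.const (Nat.succ_pos m) _
  | cons x l ih =>
    simp only [WU_cons, coeff_factor]
    refine (PolyIn.mul_left (ih m) _).add ?_
    cases m with
    | zero =>
      simp only [if_true]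
      exact PolyIn.zero _
    | succ m =>
      simp only [if_neg (Nat.succ_ne_zero m), Nat.add_sub_cancel, LinearMap.add_apply,
        LinearMap.smul_apply, smul_eq_mul, add_smul, mul_smul]
      exact ((ih m).smul (ξ x) |>.mono (by omega)).add (((ih m).smul (η x)).smulX)

theorem w_par (ξ : L →ₗ[K] K) (l : List L) (m : ℕ) :
    ant ((WU ξ l).coeff m) = (-1 : K) ^ (l.length + m) • (WU ξ l.reverse).coeff m := by
  induction l generalizing m with
  | nil =>
    rw [List.reverse_nil, WU_nil, List.length_nil, zero_add, coeff_one]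
    split_ifs with h
    · rw [h, pow_zero, one_smul]
      exact ant_one
    · rw [map_zero, smul_zero]
  | cons x l ih =>
    rw [List.reverse_cons, List.length_cons, WU_cons, coeff_factor, map_add, ant_mul, ant_ι, ih]
    have h1 : WU ξ (l.reverse ++ [x]) =
        WU ξ l.reverse * (C (ιU K L x) + C (algebraMap K (Ue K L) (ξ x)) * X) := by
      rw [WU, List.map_append, List.prod_append, List.map_cons, List.map_nil, List.prod_cons,
        List.prod_nil, mul_one, WU]
    have h2 : ∀ m, (WU ξ (l.reverse ++ [x])).coeff m = (WU ξ l.reverse).coeff m * ιU K L x +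
        (if m = 0 then 0 else ξ x • (WU ξ l.reverse).coeff (m - 1)) := by
      intro m
      rw [h1, mul_add, coeff_add, coeff_mul_C, ← mul_assoc]
      congr 1
      cases m with
      | zero => rw [coeff_mul_X_zero, if_pos rfl]
      | succ m =>
        rw [coeff_mul_X, coeff_mul_C, if_neg (Nat.succ_ne_zero m), Nat.add_sub_cancel,
          Algebra.smul_def, Algebra.commutes]
    rw [h2, smul_add]
    congr 1
    · rw [smul_mul_assoc, mul_neg, smul_neg, ← neg_smul]
      congr 1
      rw [add_right_comm, pow_succ]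
      ring
    · cases m with
      | zero => rw [if_pos rfl, if_pos rfl, map_zero, smul_zero]
      | succ m =>
        rw [if_neg (Nat.succ_ne_zero m), if_neg (Nat.succ_ne_zero m), map_smul,
          Nat.add_sub_cancel, ih, smul_comm (ξ x)]
        congr 1
        have h3 : l.length + 1 + (m + 1) = l.length + m + 2 := by omega
        rw [h3, pow_add]
        ring

end Word

section Fam

variable (K : Type*) [Field K] {n : Type*} [Fintype n] [DecidableEq n]
  {L : Type*} [LieRing L] [LieAlgebra K L]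

/-- the letters of a term of `D_k` -/
def lets (Y : Matrix n n K →ₗ[K] L) {k : ℕ} (i : Fin k → n) (τ : Equiv.Perm (Fin k)) : List L :=
  List.ofFn fun j => Y (Matrix.single (i (τ j)) (i j) 1)

theorem lets_length (Y : Matrix n n K →ₗ[K] L) {k : ℕ} (i : Fin k → n) (τ : Equiv.Perm (Fin k)) :
    (lets K Y i τ).length = k := List.length_ofFn

theorem Dk_xUt (Y : Matrix n n K →ₗ[K] L) (ξ : L →ₗ[K] K) (k : ℕ) :
    Dk k (xUt K Y ξ) = ∑ i : Fin k → n, ∑ τ : Equiv.Perm (Fin k),
      ((Equiv.Perm.sign τ : ℤ) : K) • WU ξ (lets K Y i τ) := by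
  unfold Dk
  refine Finset.sum_congr rfl fun i _ => Finset.sum_congr rfl fun τ _ => ?_
  rw [← zsmul_eq_mul, ← Int.cast_smul_eq_zsmul K, WU, lets, List.map_ofFn]
  rfl

theorem Dk_xUt_coeff (Y : Matrix n n K →ₗ[K] L) (ξ : L →ₗ[K] K) (k m : ℕ) :
    (Dk k (xUt K Y ξ)).coeff m = ∑ i : Fin k → n, ∑ τ : Equiv.Perm (Fin k),
      ((Equiv.Perm.sign τ : ℤ) : K) • (WU ξ (lets K Y i τ)).coeff m := by
  rw [Dk_xUt, finsetSum_coeff]
  refine Finset.sum_congr rfl fun i _ => ?_
  rw [finsetSum_coeff]
  refine Finset.sum_congr rfl fun τ _ => ?_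
  rw [coeff_smul]

theorem altD_xS (Y : Matrix n n K →ₗ[K] L) (k : ℕ) :
    altD k (xS K Y) = ∑ i : Fin k → n, ∑ τ : Equiv.Perm (Fin k),
      ((Equiv.Perm.sign τ : ℤ) : K) • ((lets K Y i τ).map fun x => ιS K L x).prod := by
  unfold altD
  refine Finset.sum_congr rfl fun i _ => Finset.sum_congr rfl fun τ _ => ?_
  rw [← Int.cast_smul_eq_zsmul K, lets, List.map_ofFn]
  rfl

theorem ek_xS [CharZero K] (Y : Matrix n n K →ₗ[K] L) (k : ℕ) :
    ek k (xS K Y) = ((k.factorial : K)⁻¹) • ∑ i : Fin k → n, ∑ τ : Equiv.Perm (Fin k),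
      ((Equiv.Perm.sign τ : ℤ) : K) • ((lets K Y i τ).map fun x => ιS K L x).prod := by
  rw [← altD_xS, altD_eq, ← map_natCast (algebraMap K (Sy K L)), ← Algebra.smul_def, smul_smul,
    inv_mul_cancel₀ (Nat.cast_ne_zero.2 (Nat.factorial_ne_zero k)), one_smul]

theorem prodS_mem (l : List L) : (l.map fun x => ιS K L x).prod ∈ imS K L ^ l.length := by
  induction l with
  | nil =>
    rw [List.map_nil, List.prod_nil, List.length_nil, pow_zero]
    exact Submodule.one_le.1 le_rfl
  | cons x l ih =>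
    rw [List.map_cons, List.prod_cons, List.length_cons, pow_succ']
    exact Submodule.mul_mem_mul ⟨x, rfl⟩ ih

theorem ek_xS_mem [CharZero K] (Y : Matrix n n K →ₗ[K] L) (k : ℕ) :
    ek k (xS K Y) ∈ imS K L ^ k := by
  rw [ek_xS]
  refine Submodule.smul_mem _ _ (sum_mem fun i _ => sum_mem fun τ _ => Submodule.smul_mem _ _ ?_)
  have h := prodS_mem K (lets K Y i τ)
  rwa [lets_length] at h

theorem lets_reverse (Y : Matrix n n K →ₗ[K] L) {k : ℕ} (i : Fin k → n)
    (τ : Equiv.Perm (Fin k)) : (lets K Y i τ).reverse =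
      lets K Y (i ∘ Fin.rev) (Fin.revPerm.symm.permCongr τ) := by
  unfold lets
  refine List.ext_getElem (by simp) fun a h1 h2 => ?_
  rw [List.getElem_reverse, List.getElem_ofFn, List.getElem_ofFn]
  have h3 : a < k := by simpa using h2
  have h4 : ∀ h, (⟨(List.ofFn fun j => Y (Matrix.single (i (τ j)) (i j) 1)).length - 1 - a, h⟩ :
      Fin k) = Fin.rev ⟨a, h3⟩ := by
    intro h
    ext
    rw [Fin.val_rev]
    simp only [List.length_ofFn]
    omega
  simp only [h4]
  rw [Equiv.permCongr_apply]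
  simp only [Function.comp_apply, Fin.revPerm_apply, Fin.revPerm_symm,
    Fin.rev_rev]

theorem hasQ_ek [CharZero K] (Y : Matrix n n K →ₗ[K] L)
    (C : (L →ₗ[K] K) → Subalgebra K (Ue K L))
    (hC : ∀ ξ k m, (Dk k (xUt K Y ξ)).coeff m ∈ C ξ) (k : ℕ) : HasQ C k (ek k (xS K Y)) := by
  refine ⟨fun ξ m => ((k.factorial : K)⁻¹) • (Dk k (xUt K Y ξ)).coeff m, ek_xS_mem K Y k,
    ?_, ?_, ?_, ?_, fun ξ m => Subalgebra.smul_mem _ (hC ξ k m) _⟩
  · intro ξ m hm
    rw [ek_xS, map_smul, coeff_smul, Dk_xUt_coeff, map_sum, finsetSum_coeff]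
    refine IsSymbol.smul _ (IsSymbol_sum _ fun i _ => ?_)
    rw [map_sum, finsetSum_coeff]
    refine IsSymbol_sum _ fun τ _ => ?_
    rw [map_smul, coeff_smul]
    refine IsSymbol.smul _ ?_
    have h := w_symb ξ (lets K Y i τ) m (by rw [lets_length]; exact hm)
    rwa [lets_length] at h
  · intro ξ m hm
    rw [Dk_xUt_coeff, Finset.sum_eq_zero, smul_zero]
    intro i _
    refine Finset.sum_eq_zero fun τ _ => ?_
    rw [(w_zero ξ (lets K Y i τ) m (by rw [lets_length]; exact hm)).1, smul_zero]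
  · intro ξ η m
    have h : PolyIn K (m + 1) (fun s => ((k.factorial : K)⁻¹) •
        (Dk k (xUt K Y (ξ + s • η))).coeff m) := by
      refine PolyIn.smul ?_ _
      simp only [Dk_xUt_coeff]
      exact PolyIn.sum _ fun i _ => PolyIn.sum _ fun τ _ => PolyIn.smul (w_poly ξ η _ m) _
    exact h
  · intro ξ m
    rw [map_smul, smul_comm]
    congr 1
    rw [Dk_xUt_coeff, map_sum, Finset.smul_sum]
    refine Fintype.sum_equiv (Equiv.arrowCongr Fin.revPerm (Equiv.refl n)) _ _ fun i => ?_
    rw [map_sum, Finset.smul_sum]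
    refine Fintype.sum_equiv (Fin.revPerm.symm.permCongr) _ _ fun τ => ?_
    rw [map_smul, w_par, lets_length, lets_reverse, smul_comm]
    congr 2
    rw [Equiv.Perm.sign_permCongr]

end Fam

end Pool.Agent.helper90.QTA
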