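import Mathlib
import Pool.Agent.helper49.QA.Lim
import Pool.Agent.helper90.QTA.FamAlt

/-!
# The limit of the symmetrised minors

If `θ (Y E_ji) = ± Y E_ji`, with the sign given by a parity function on the indices, then the
number of odd factors in the terms of `D_k` is at most twice the number of the odd indices.
-/

set_option autoImplicit false
set_option linter.unusedSectionVars false

namespace Pool.Agent.helper90.QTA

open Pool.Agent.helper5.AS Finset Polynomial Pool.Agent.helper49.QA Pool.Agent.helper90.MF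
open Pool.Agent.helper5.ASQ (Invol even oddc brk IsContraction)

section Word

variable {K : Type*} [Field K] [CharZero K] {g : Type*} [LieRing g] [LieAlgebra K g]
  (θ : Invol K g)

/-- words of homogeneous letters; the flag `true` is odd -/
def Hom (l : List (g × Bool)) : Prop :=
  ∀ p ∈ l, θ.hom p.1 = if p.2 then -p.1 else p.1

/-- the letters -/
def fs (l : List (g × Bool)) : List g := l.map Prod.fst

/-- the number of the odd letters -/
def tot (l : List (g × Bool)) : ℕ := l.countP Prod.snd

theorem Hom_tail {p : g × Bool} {l : List (g × Bool)} (h : Hom θ (p :: l)) : Hom θ l :=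
  fun q hq => h q (List.mem_cons_of_mem p hq)

theorem scl_hom {p : g × Bool} (h : θ.hom p.1 = if p.2 then -p.1 else p.1) (s : K) :
    scl θ s p.1 = s ^ (if p.2 then 1 else 0) • p.1 := by
  rw [scl_apply]
  rcases hp : p.2 with _ | _
  · rw [hp] at h
    simp only [Bool.false_eq_true, if_false] at h ⊢
    rw [Pool.Agent.helper5.ASQ.even_of_fix θ h, Pool.Agent.helper5.ASQ.oddc_of_fix θ h, smul_zero,
      add_zero, pow_zero, one_smul]
  · rw [hp] at h
    simp only [if_true] at h ⊢
    rw [Pool.Agent.helper5.ASQ.even_of_neg θ h, Pool.Agent.helper5.ASQ.oddc_of_neg θ h, zero_add,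
      pow_one]

theorem tot_cons (p : g × Bool) (l : List (g × Bool)) :
    tot (p :: l) = (if p.2 then 1 else 0) + tot l := by
  rw [tot, List.countP_cons, add_comm, tot]

theorem scS_word {l : List (g × Bool)} (h : Hom θ l) :
    scS θ ((fs l).map fun x => ιS K g x).prod =
      X ^ tot l * C ((fs l).map fun x => ιS K g x).prod := by
  induction l with
  | nil =>
    have h1 : fs ([] : List (g × Bool)) = [] := rfl
    rw [h1, List.map_nil, List.prod_nil, map_one, map_one, tot, List.countP_nil, pow_zero,
      one_mul]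
  | cons p l ih =>
    have h1 : fs (p :: l) = p.1 :: fs l := rfl
    rw [h1, List.map_cons, List.prod_cons, map_mul, ih (Hom_tail θ h), tot_cons, pow_add, map_mul,
      scS_ι]
    have h2 := h p List.mem_cons_self
    have h3 : (C (ιS K g (even θ p.1)) + X * C (ιS K g (oddc θ p.1)) : (Sy K g)[X]) =
        X ^ (if p.2 then 1 else 0) * C (ιS K g p.1) := by
      rcases hp : p.2 with _ | _
      · rw [hp] at h2
        simp only [Bool.false_eq_true, if_false] at h2 ⊢
        rw [Pool.Agent.helper5.ASQ.even_of_fix θ h2, Pool.Agent.helper5.ASQ.oddc_of_fix θ h2,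
          map_zero, map_zero, mul_zero, add_zero, pow_zero, one_mul]
      · rw [hp] at h2
        simp only [if_true] at h2 ⊢
        rw [Pool.Agent.helper5.ASQ.even_of_neg θ h2, Pool.Agent.helper5.ASQ.oddc_of_neg θ h2,
          map_zero, map_zero, zero_add, pow_one]
    rw [h3]
    ring

/-- the word with values in the tensor algebra -/
noncomputable def WT (φ : g →ₗ[K] K) (l : List g) : (TensorAlgebra K g)[X] :=
  (l.map fun x => C (TensorAlgebra.ι K x) + C (algebraMap K (TensorAlgebra K g) (φ x)) * X).prod

theorem WT_nil (φ : g →ₗ[K] K) : WT φ ([] : List g) = 1 := by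
  rw [WT, List.map_nil, List.prod_nil]

theorem WT_cons (φ : g →ₗ[K] K) (x : g) (l : List g) :
    WT φ (x :: l) = (C (TensorAlgebra.ι K x) +
      C (algebraMap K (TensorAlgebra K g) (φ x)) * X) * WT φ l := by
  rw [WT, List.map_cons, List.prod_cons, WT]

/-- the scaling of the word -/
theorem WT_scl (φ : g →ₗ[K] K) {l : List (g × Bool)} (h : Hom θ l) {s : K} (hs : s ≠ 0)
    (m : ℕ) : s ^ tot l • (pU (tmap (scl θ s⁻¹) ((WT φ (fs l)).coeff m)) : Ue K g) =
      (WU (φ ∘ₗ scl θ s) (fs l)).coeff m := by
  induction l generalizing m with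
  | nil =>
    have h1 : fs ([] : List (g × Bool)) = [] := rfl
    rw [h1, WT_nil, WU_nil, tot, List.countP_nil, pow_zero, one_smul, coeff_one, coeff_one]
    split_ifs
    · rw [map_one, map_one]
    · rw [map_zero, map_zero]
  | cons p l ih =>
    have h1 : fs (p :: l) = p.1 :: fs l := rfl
    have h2 := h p List.mem_cons_self
    rw [h1, WT_cons, WU_cons, coeff_factor, coeff_factor, ← ih (Hom_tail θ h), tot_cons, pow_add,
      map_add, map_add, smul_add]
    congr 1
    · rw [map_mul, map_mul, tmap_ι, scl_hom θ h2, map_smul, map_smul, pU_ι, smul_mul_assoc,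
        mul_smul_comm, smul_smul, mul_right_comm, ← mul_pow, mul_inv_cancel₀ hs, one_pow,
        one_mul]
    · by_cases hm : m = 0
      · rw [if_pos hm, if_pos hm, map_zero, map_zero, smul_zero]
      · rw [if_neg hm, if_neg hm, ← ih (Hom_tail θ h), map_smul, map_smul, smul_smul, smul_smul,
          LinearMap.comp_apply, scl_hom θ h2, map_smul, smul_eq_mul]
        congr 1
        ring

/-- the word in the contraction -/
theorem WT_map {k : Type*} [LieRing k] [LieAlgebra K k] (ξ : k →ₗ[K] K) (e : g →ₗ[K] k)
    (l : List g) (m : ℕ) :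
    (pU (tmap e ((WT (ξ ∘ₗ e) l).coeff m)) : Ue K k) = (WU ξ (l.map e)).coeff m := by
  induction l generalizing m with
  | nil =>
    rw [List.map_nil, WT_nil, WU_nil, coeff_one, coeff_one]
    split_ifs
    · rw [map_one, map_one]
    · rw [map_zero, map_zero]
  | cons x l ih =>
    rw [List.map_cons, WT_cons, WU_cons, coeff_factor, coeff_factor, ← ih, map_add, map_add]
    congr 1
    · rw [map_mul, map_mul, tmap_ι, pU_ι]
    · by_cases hm : m = 0
      · rw [if_pos hm, if_pos hm, map_zero, map_zero]
      · rw [if_neg hm, if_neg hm, ← ih, map_smul, map_smul]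
        rfl

theorem smap_word {k : Type*} [LieRing k] [LieAlgebra K k] (e : g →ₗ[K] k) (l : List g) :
    smap e (l.map fun x => ιS K g x).prod = ((l.map e).map fun x => ιS K k x).prod := by
  rw [map_list_prod, List.map_map, List.map_map]
  congr 2
  funext x
  exact smap_ι e x

end Word

section Cancel

variable {K : Type*} [Field K] [CharZero K] {n : Type*} [Fintype n] [DecidableEq n]
  {g : Type*} [LieRing g] [LieAlgebra K g]

/-- only the injective maps contribute -/
theorem cancel {V : Type*} [AddCommGroup V] [Module K V] (Y : Matrix n n K →ₗ[K] g) {k : ℕ}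
    (G : List g → V) :
    ∑ i : Fin k → n, ∑ τ : Equiv.Perm (Fin k), ((Equiv.Perm.sign τ : ℤ) : K) • G (lets K Y i τ) =
      ∑ i ∈ univ.filter (fun i : Fin k → n => Function.Injective i),
        ∑ τ : Equiv.Perm (Fin k), ((Equiv.Perm.sign τ : ℤ) : K) • G (lets K Y i τ) := by
  symm
  apply Finset.sum_subset (Finset.filter_subset _ _)
  intro i _ hi
  rw [Finset.mem_filter] at hi
  have hi' : ¬ Function.Injective i := fun u => hi ⟨Finset.mem_univ _, u⟩
  rw [Function.Injective] at hi'
  push Not at hi'
  obtain ⟨a, b, hab, hne⟩ := hi'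
  have h1 : ∀ x, i (Equiv.swap a b x) = i x := by
    intro x
    by_cases hxa : x = a
    · rw [hxa, Equiv.swap_apply_left, hab]
    · by_cases hxb : x = b
      · rw [hxb, Equiv.swap_apply_right, hab]
      · rw [Equiv.swap_apply_of_ne_of_ne hxa hxb]
  have h2 : ∀ τ : Equiv.Perm (Fin k), lets K Y i (Equiv.swap a b * τ) = lets K Y i τ := by
    intro τ
    unfold lets
    congr 1
    funext j
    rw [Equiv.Perm.mul_apply, h1]
  have h3 : ∑ τ : Equiv.Perm (Fin k), ((Equiv.Perm.sign τ : ℤ) : K) • G (lets K Y i τ) =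
      -∑ τ : Equiv.Perm (Fin k), ((Equiv.Perm.sign τ : ℤ) : K) • G (lets K Y i τ) := by
    rw [← Finset.sum_neg_distrib]
    refine Fintype.sum_equiv (Equiv.mulLeft (Equiv.swap a b)) _ _ fun τ => ?_
    rw [Equiv.coe_mulLeft, h2, Equiv.Perm.sign_mul, Equiv.Perm.sign_swap hne]
    simp
  have h4 : (2 : K) • ∑ τ : Equiv.Perm (Fin k),
      ((Equiv.Perm.sign τ : ℤ) : K) • G (lets K Y i τ) = 0 := by
    rw [two_smul]
    nth_rewrite 2 [h3]
    rw [add_neg_cancel]
  exact (smul_eq_zero.1 h4).resolve_left two_ne_zero

variable (K) in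
/-- the letters with their parities -/
def letp (par : n → Bool) (Y : Matrix n n K →ₗ[K] g) {k : ℕ} (i : Fin k → n)
    (τ : Equiv.Perm (Fin k)) : List (g × Bool) :=
  List.ofFn fun j => (Y (Matrix.single (i (τ j)) (i j) 1), decide (par (i (τ j)) ≠ par (i j)))

theorem fs_letp (par : n → Bool) (Y : Matrix n n K →ₗ[K] g) {k : ℕ} (i : Fin k → n)
    (τ : Equiv.Perm (Fin k)) : fs (letp K par Y i τ) = lets K Y i τ := by
  unfold fs letp lets
  rw [List.map_ofFn]
  rfl

theorem letp_hom (θ : Invol K g) (par : n → Bool) (Y : Matrix n n K →ₗ[K] g)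
    (hθ : ∀ i j, θ.hom (Y (Matrix.single i j 1)) =
      if par i = par j then Y (Matrix.single i j 1) else -Y (Matrix.single i j 1))
    {k : ℕ} (i : Fin k → n) (τ : Equiv.Perm (Fin k)) : Hom θ (letp K par Y i τ) := by
  intro p hp
  unfold letp at hp
  rw [List.mem_ofFn] at hp
  obtain ⟨j, rfl⟩ := hp
  simp only [decide_eq_true_eq, ne_eq, ite_not]
  exact hθ _ _

theorem countP_ofFn {α : Type*} {k : ℕ} (f : Fin k → α) (p : α → Bool) :
    (List.ofFn f).countP p = (univ.filter fun j => p (f j) = true).card := by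
  induction k with
  | zero => simp
  | succ k ih =>
    rw [List.ofFn_succ, List.countP_cons, ih, Finset.card_filter, Finset.card_filter,
      Fin.sum_univ_succ, add_comm]

theorem tot_letp_le (par : n → Bool) (Y : Matrix n n K →ₗ[K] g) {k : ℕ} {i : Fin k → n}
    (hi : Function.Injective i) (τ : Equiv.Perm (Fin k)) :
    tot (letp K par Y i τ) ≤ 2 * (univ.filter fun a => par a = true).card := by
  unfold tot letp
  rw [countP_ofFn]
  have h1 : (univ.filter fun j => decide (par (i (τ j)) ≠ par (i j)) = true) ⊆
      (univ.filter fun j => par (i (τ j)) = true) ∪ (univ.filter fun j => par (i j) = true) := by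
    intro j hj
    rw [mem_filter] at hj
    have hj2 := of_decide_eq_true hj.2
    rw [mem_union, mem_filter, mem_filter]
    rcases h : par (i j) with _ | _
    · left
      rw [h] at hj2
      exact ⟨mem_univ _, by simpa using hj2⟩
    · right
      exact ⟨mem_univ _, rfl⟩
  have h2 : (univ.filter fun j => par (i j) = true).card ≤
      (univ.filter fun a => par a = true).card := by
    refine Finset.card_le_card_of_injOn i ?_ (hi.injOn)
    intro j hj
    rw [mem_coe, mem_filter] at hj
    rw [mem_coe, mem_filter]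
    exact ⟨mem_univ _, hj.2⟩
  have h3 : (univ.filter fun j => par (i (τ j)) = true).card ≤
      (univ.filter fun a => par a = true).card := by
    refine Finset.card_le_card_of_injOn (i ∘ τ) ?_ ((hi.comp τ.injective).injOn)
    intro j hj
    rw [mem_coe, mem_filter] at hj
    rw [mem_coe, mem_filter]
    exact ⟨mem_univ _, hj.2⟩
  calc _ ≤ _ := Finset.card_le_card h1
    _ ≤ _ := Finset.card_union_le _ _
    _ ≤ _ := by rw [two_mul]; exact add_le_add h3 h2

end Cancel

section Main

variable {K : Type*} [Field K] [CharZero K] {n : Type*} [Fintype n] [DecidableEq n]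
  {g : Type*} [LieRing g] [LieAlgebra K g] (θ : Invol K g) {k : Type*} [LieRing k]
  [LieAlgebra K k]

/-- the sum over injective maps and permutations -/
theorem limQ_ek (e : g ≃ₗ[K] k) (Y : Matrix n n K →ₗ[K] g) (par : n → Bool)
    (hθ : ∀ i j, θ.hom (Y (Matrix.single i j 1)) =
      if par i = par j then Y (Matrix.single i j 1) else -Y (Matrix.single i j 1))
    (C : (g →ₗ[K] K) → Subalgebra K (Ue K g))
    (hC : ∀ ξ k m, (Dk k (xUt K Y ξ)).coeff m ∈ C ξ) (d b : ℕ)
    (hb : 2 * (univ.filter fun i => par i = true).card ≤ b) :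
    LimQ θ e C d b (ek d (xS K Y)) := by
  intro ξ m hm
  set φ : g →ₗ[K] K := ξ ∘ₗ (e : g →ₗ[K] k) with hφ
  set I := univ.filter (fun i : Fin d → n => Function.Injective i) with hI
  let R : (TensorAlgebra K g)[X] := ((d.factorial : K)⁻¹) • ∑ i ∈ I,
    ∑ τ : Equiv.Perm (Fin d), ((Equiv.Perm.sign τ : ℤ) : K) •
      monomial (tot (letp K par Y i τ)) ((WT φ (lets K Y i τ)).coeff m)
  refine ⟨fun s => ((d.factorial : K)⁻¹) • (Dk d (xUt K Y (xis θ e ξ s))).coeff m,
    pU (tmap (e : g →ₗ[K] k) (R.coeff b)), fun s _ => Subalgebra.smul_mem _ (hC _ d m) _,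
    ⟨R, ?_, ?_, rfl⟩, ?_⟩
  · refine (natDegree_smul_le _ _).trans ?_
    refine natDegree_sum_le_of_forall_le _ _ fun i hi => ?_
    refine natDegree_sum_le_of_forall_le _ _ fun τ _ => ?_
    refine (natDegree_smul_le _ _).trans ((natDegree_monomial_le _).trans ?_)
    exact (tot_letp_le par Y (mem_filter.1 hi).2 τ).trans hb
  · intro s hs
    beta_reduce
    rw [Dk_xUt_coeff, cancel Y (fun l => (WU (xis θ e ξ s) l).coeff m)]
    rw [map_smul, map_smul, map_smul]
    congr 1
    rw [map_sum, map_sum, map_sum]
    refine Finset.sum_congr rfl fun i _ => ?_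
    rw [map_sum, map_sum, map_sum]
    refine Finset.sum_congr rfl fun τ _ => ?_
    rw [map_smul, map_smul, map_smul]
    congr 1
    have h1 : ∀ (a : ℕ) (y : TensorAlgebra K g), evc s (monomial a y) = s ^ a • y := by
      intro a y
      rw [evc_eq, eval₂_monomial, RingHom.id_apply, ← map_pow, ← Algebra.commutes,
        Algebra.smul_def]
    rw [h1, map_smul, map_smul]
    have h2 := WT_scl θ φ (letp_hom θ par Y hθ i τ) hs m
    rw [fs_letp] at h2
    exact h2
  · rw [ek_xS, cancel Y (fun l => (l.map fun x => ιS K g x).prod)]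
    have h3 : ∀ i (τ : Equiv.Perm (Fin d)),
        (scS θ ((lets K Y i τ).map fun x => ιS K g x).prod).coeff b =
        if tot (letp K par Y i τ) = b then ((lets K Y i τ).map fun x => ιS K g x).prod
          else 0 := by
      intro i τ
      have h4 := scS_word θ (letp_hom θ par Y hθ i τ)
      rw [fs_letp] at h4
      rw [h4, coeff_X_pow_mul', coeff_C]
      by_cases h5 : tot (letp K par Y i τ) = b
      · rw [if_pos h5.le, if_pos h5, if_pos (by omega)]
      · rw [if_neg h5]
        by_cases h6 : tot (letp K par Y i τ) ≤ b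
        · rw [if_pos h6, if_neg (by omega)]
        · rw [if_neg h6]
    simp only [R, map_smul, coeff_smul, map_sum, finsetSum_coeff]
    refine IsSymbol.smul _ (IsSymbol_sum _ fun i _ => IsSymbol_sum _ fun τ _ =>
      IsSymbol.smul _ ?_)
    rw [h3, coeff_monomial]
    by_cases h5 : tot (letp K par Y i τ) = b
    · rw [if_pos h5, if_pos h5, hφ, WT_map, smap_word]
      have h7 := w_symb ξ ((lets K Y i τ).map (e : g →ₗ[K] k)) m (by
        rw [List.length_map, lets_length]
        exact hm.le)
      rwa [List.length_map, lets_length] at h7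
    · rw [if_neg h5, if_neg h5, map_zero, map_zero, map_zero, map_zero,
        Polynomial.coeff_zero]
      exact IsSymbol.of_low (zero_mem _)

end Main

end Pool.Agent.helper90.QTA
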