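import Mathlib
import Pool.Agent.helper90.QTA.LimAlt
import Pool.Agent.helper49.QA.Conj
import Pool.Agent.helper49.QA.LimPar

/-!
# Realisations of type A
-/

set_option autoImplicit false
set_option linter.unusedSectionVars false

namespace Pool.Agent.helper90.QTA

open Pool.Agent.helper5.AS Finset Polynomial Pool.Agent.helper49.QA Pool.Agent.helper90.MF
open Pool.Agent.helper5.ASQ (Invol even oddc brk IsContraction)

attribute [local instance 100] LieRing.ofAssociativeRing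

variable {K : Type*} [Field K] [CharZero K] {n : Type*} [Fintype n] [DecidableEq n]
  {g : Type*} [LieRing g] [LieAlgebra K g] {θ : Invol K g}

/-- the representation is an isomorphism with the algebra of the matrices with trace zero -/
structure IsA (r : Rz K n θ) : Prop where
  tr0 : ∀ x, (r.ρ x).trace = 0
  prj : ∀ a, r.ρ (r.Y a) = a - (a.trace / (Fintype.card n : K)) • (1 : Matrix n n K)

theorem IsA.of_tr {r : Rz K n θ} (h : IsA r) {a : Matrix n n K} (ha : a.trace = 0) :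
    r.ρ (r.Y a) = a := by
  rw [h.prj, ha, zero_div, zero_smul, sub_zero]

theorem IsA.Y_lie {r : Rz K n θ} (h : IsA r) (a b : Matrix n n K) :
    ⁅r.Y a, r.Y b⁆ = r.Y (a * b - b * a) := by
  apply r.inj
  have h1 : (a * b - b * a).trace = 0 := by
    rw [Matrix.trace_sub, Matrix.trace_mul_comm, sub_self]
  rw [h.of_tr h1, r.lie, h.prj, h.prj]
  simp only [mul_sub, sub_mul, Matrix.mul_smul, Matrix.smul_mul, Matrix.mul_one, Matrix.one_mul]
  rw [smul_comm (b.trace / (Fintype.card n : K)) (a.trace / (Fintype.card n : K))]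
  abel

/-- conjugation -/
theorem IsA.conj {r : Rz K n θ} (h : IsA r) {m : Type*} [Fintype m] [DecidableEq m]
    (P : Matrix m n K) (Q : Matrix n m K) (hPQ : P * Q = 1) (hQP : Q * P = 1)
    (hc : Fintype.card m = Fintype.card n) : IsA (r.conj P Q hPQ hQP) := by
  constructor
  · intro x
    rw [Rz.conj_ρ, Matrix.trace_mul_comm, ← Matrix.mul_assoc, hQP, Matrix.one_mul, h.tr0]
  · intro a
    rw [Rz.conj_ρ, Rz.conj_Y, h.prj, hc, Matrix.mul_sub, Matrix.sub_mul, Matrix.mul_smul,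
      Matrix.smul_mul, Matrix.mul_one, hPQ]
    congr 2
    · rw [← Matrix.mul_assoc, ← Matrix.mul_assoc, hPQ, Matrix.one_mul, Matrix.mul_assoc, hPQ,
        Matrix.mul_one]
    · congr 1
      rw [Matrix.mul_assoc, Matrix.trace_mul_comm, Matrix.mul_assoc, hPQ, Matrix.mul_one]

/-- the algebra generated by the symmetrised minors of `x + t ξ` -/
noncomputable def CA (r : Rz K n θ) (ξ : g →ₗ[K] K) : Subalgebra K (Ue K g) :=
  Algebra.adjoin K {u | ∃ k m, u = (Dk k (xUt K r.Y ξ)).coeff m}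

theorem CA_mem (r : Rz K n θ) (ξ : g →ₗ[K] K) (k m : ℕ) :
    (Dk k (xUt K r.Y ξ)).coeff m ∈ CA r ξ := Algebra.subset_adjoin ⟨k, m, rfl⟩

theorem CA_comm {r : Rz K n θ} (h : IsA r) (ξ : g →ₗ[K] K) :
    ∀ a ∈ CA r ξ, ∀ b ∈ CA r ξ, a * b = b * a := by
  intro a ha b hb
  have h1 : ∀ x ∈ {u | ∃ k m, u = (Dk k (xUt K r.Y ξ)).coeff m},
      ∀ y ∈ {u | ∃ k m, u = (Dk k (xUt K r.Y ξ)).coeff m}, x * y = y * x := by
    rintro _ ⟨k, m, rfl⟩ _ ⟨k', m', rfl⟩
    exact TA K r.Y h.Y_lie ξ k m k' m'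
  have h2 := Algebra.isMulCommutative_adjoin K h1
  exact congrArg Subtype.val (h2.is_comm.comm (⟨a, ha⟩ : Algebra.adjoin K
    {u | ∃ k m, u = (Dk k (xUt K r.Y ξ)).coeff m}) ⟨b, hb⟩)

theorem XM_eq (r : Rz K n θ) : r.XM = xS K r.Y := rfl

theorem H_false (r : Rz K n θ) (k : ℕ) : r.H false k = ek k (xS K r.Y) := by
  rw [Rz.H, phi, if_neg (by decide), XM_eq]

theorem H_true (r : Rz K n θ) (k : ℕ) : r.H true k = sqr K (fun j => ek j (xS K r.Y)) k := by
  rw [Rz.H, phi, if_pos rfl, XM_eq]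

theorem hasQ_H {r : Rz K n θ} (h : IsA r) (c : Bool) (k : ℕ) : HasQ (CA r) k (r.H c k) := by
  have h1 : ∀ j, HasQ (CA r) j (ek j (xS K r.Y)) := fun j =>
    hasQ_ek K r.Y (CA r) (fun ξ k m => CA_mem r ξ k m) j
  cases c
  · rw [H_false]
    exact h1 k
  · rw [H_true]
    exact HasQ.sqr (CA_comm h) h1 k

/-- the contraction is linear -/
theorem lin_con (r : Rz K n θ) {k : Type*} [LieRing k] [LieAlgebra K k] {e : g ≃ₗ[K] k}
    (he : IsContraction θ e) : Lin K k := by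
  let f : Matrix (Fin 2) (Fin 2) (Matrix n n K) ≃ₐ[K]
      Matrix (Fin (Fintype.card (Fin 2 × n))) (Fin (Fintype.card (Fin 2 × n))) K :=
    (Matrix.compAlgEquiv (Fin 2) n K K).trans
      (Matrix.reindexAlgEquiv K K (Fintype.equivFin (Fin 2 × n)))
  refine ⟨Fintype.card (Fin 2 × n),
    f.toLinearMap ∘ₗ (mu θ r.ρ 0 1 ∘ₗ (e.symm : k →ₗ[K] g)), fun x y => ?_, ?_⟩
  · have h := congrArg f (isLieMap_con θ r.lie he x y)
    rw [map_sub, map_mul, map_mul] at h
    exact h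
  · exact f.injective.comp (con_injective θ r.inj e)

theorem quant_asm {r : Rz K n θ} (h : IsA r) {k : Type*} [LieRing k] [LieAlgebra K k]
    {e : g ≃ₗ[K] k} (he : IsContraction θ e) {l : ℕ} (c : Fin l → Bool) (m b : Fin l → ℕ)
    {p q x0 : k →ₗ[K] K} (hD : Data (fun i => r.gen e (c i) (m i) (b i)) m p q x0)
    (hL : ∀ i, LimQ θ e (CA r) (m i) (b i) (r.H (c i) (m i))) : Quant K k :=
  ⟨lin_con r he, l, _, m, p, q, x0, hD, fun ξ =>
    comm_of_limQ θ r.lie r.inj he (CA_comm h) (fun i => r.H (c i) (m i)) m b hL ξ⟩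

end Pool.Agent.helper90.QTA
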