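import Mathlib
import Pool.Agent.helper90.QTA.AReal
import Pool.Agent.helper49.QA.Band
import Pool.Agent.helper49.QA.Degree

/-!
# Chain matrices
-/

set_option autoImplicit false
set_option linter.unusedSectionVars false

namespace Pool.Agent.helper90.QTA

open Pool.Agent.helper5.AS Finset Polynomial Pool.Agent.helper49.QA Pool.Agent.helper90.MF
open Pool.Agent.helper5.ASQ (Invol even oddc brk IsContraction)

variable (K : Type*) [Field K] (N : ℕ)

/-- the lower shift matrix -/
def Lo : Matrix (Fin N) (Fin N) K := Matrix.of fun i j => if i.val = j.val + 1 then 1 else 0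

/-- the upper shift matrix -/
def Up : Matrix (Fin N) (Fin N) K := Matrix.of fun i j => if i.val + 1 = j.val then 1 else 0

theorem Lo_trace : (Lo K N).trace = 0 := by
  refine Finset.sum_eq_zero fun i _ => ?_
  rw [Matrix.diag_apply, Lo, Matrix.of_apply, if_neg (by omega)]

theorem Up_trace : (Up K N).trace = 0 := by
  refine Finset.sum_eq_zero fun i _ => ?_
  rw [Matrix.diag_apply, Up, Matrix.of_apply, if_neg (by omega)]

theorem Lo_transpose : (Lo K N).transpose = Up K N := by
  ext i j
  rw [Matrix.transpose_apply, Lo, Up, Matrix.of_apply, Matrix.of_apply]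
  by_cases h : j.val = i.val + 1
  · rw [if_pos h, if_pos h.symm]
  · rw [if_neg h, if_neg fun h2 => h h2.symm]

/-- the chain matrix with the weights `dl` of the links -/
noncomputable def CH (dl : ℕ → ℕ) (s t : K) : Matrix (Fin N) (Fin N) K[X] :=
  Matrix.of fun i j => X ^ dl (min i.val j.val) * C ((s • Lo K N + t • Up K N) i j)

variable {K N}

theorem CH_transpose (dl : ℕ → ℕ) (s t : K) : (CH K N dl s t).transpose = CH K N dl t s := by
  ext1 i j
  rw [Matrix.transpose_apply, CH, CH, Matrix.of_apply, Matrix.of_apply, min_comm]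
  congr 2
  rw [← Matrix.transpose_apply (s • Lo K N + t • Up K N), Matrix.transpose_add,
    Matrix.transpose_smul, Matrix.transpose_smul, Lo_transpose, ← Lo_transpose,
    Matrix.transpose_transpose, add_comm]

theorem CH_band (dl : ℕ → ℕ) (s t : K) (i j : Fin N) (h : i.val + 1 < j.val) :
    CH K N dl s t i j = 0 := by
  rw [CH, Matrix.of_apply, Matrix.add_apply, Matrix.smul_apply, Matrix.smul_apply, Lo, Up,
    Matrix.of_apply, Matrix.of_apply, if_neg (by omega), if_neg (by omega), smul_zero, smul_zero,
    add_zero, C_0, mul_zero]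

theorem CH_link (dl : ℕ → ℕ) (s t : K) (i j : Fin N) (h : i.val + 1 = j.val) :
    CH K N dl s t i j = X ^ dl i.val * C t := by
  have h1 : min i.val j.val = i.val := by omega
  rw [CH, Matrix.of_apply, Matrix.add_apply, Matrix.smul_apply, Matrix.smul_apply, Lo, Up,
    Matrix.of_apply, Matrix.of_apply, if_neg (by omega), if_pos h, smul_zero, zero_add,
    smul_eq_mul, mul_one, h1]

theorem CH_zero (dl : ℕ → ℕ) (s t : K) (m : ℕ) (i j : Fin N) (h : i.val + m < j.val) :
    (CH K N dl s t ^ m) i j = 0 :=
  band_zero (fun i : Fin N => i.val) (fun i j h => CH_band dl s t i j h) m i j h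

theorem CH_top (dl : ℕ → ℕ) (s t : K) (m : ℕ) (i j : Fin N) (h : j.val = i.val + m) :
    (CH K N dl s t ^ m) i j = X ^ (∑ l ∈ Ico i.val j.val, dl l) * C (t ^ m) := by
  rw [band_prod (fun i j h => CH_band dl s t i j h) (fun l => X ^ dl l * C t)
    (fun i j h => CH_link dl s t i j h) m i j h, Finset.prod_mul_distrib, Finset.prod_pow_eq_pow_sum,
    Finset.prod_const, Nat.card_Ico, h, Nat.add_sub_cancel_left, C_pow]

theorem CH_zero' (dl : ℕ → ℕ) (s t : K) (m : ℕ) (i j : Fin N) (h : j.val + m < i.val) :
    (CH K N dl s t ^ m) i j = 0 := by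
  rw [← Matrix.transpose_apply (CH K N dl s t ^ m), Matrix.transpose_pow, CH_transpose]
  exact CH_zero dl t s m j i h

theorem CH_top' (dl : ℕ → ℕ) (s t : K) (m : ℕ) (i j : Fin N) (h : i.val = j.val + m) :
    (CH K N dl s t ^ m) i j = X ^ (∑ l ∈ Ico j.val i.val, dl l) * C (s ^ m) := by
  rw [← Matrix.transpose_apply (CH K N dl s t ^ m), Matrix.transpose_pow, CH_transpose]
  exact CH_top dl t s m j i h

end Pool.Agent.helper90.QTA
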