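import Mathlib
import Pool.Agent.helper90.QTA.Chain
import Pool.Agent.helper49.QA.Index
import Pool.Agent.helper49.QA.LAInvol

/-!
# Type AIII
-/

set_option autoImplicit false
set_option linter.unusedSectionVars false

namespace Pool.Agent.helper90.QTA

open Pool.Agent.helper5.AS Finset Polynomial Pool.Agent.helper49.QA Pool.Agent.helper90.MF
open Pool.Agent.helper5.ASQ (Invol even oddc brk IsContraction)

variable {K : Type*} [Field K] {N : ℕ}

/-! ## the chain form -/

/-- the parity in the chain form: the indices `0, 2, ..., 2 q - 2` are odd -/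
def parC (N q : ℕ) (i : Fin N) : Bool := decide (i.val % 2 = 0 ∧ i.val < 2 * q)

/-- the weights of the links -/
def dlC (q l : ℕ) : ℕ := if l + 1 < 2 * q then 1 else 0

theorem od_parC {q : ℕ} (i j : Fin N) (h : i.val + 1 = j.val) :
    od (parC N q) i j = dlC q i.val := by
  unfold od parC dlC
  simp only [decide_eq_decide]
  split_ifs with h1 h2 h2
  · omega
  · rfl
  · rfl
  · omega

theorem od_comm {n : Type*} (par : n → Bool) (i j : n) : od par i j = od par j i := by
  unfold od
  simp only [eq_comm]

theorem sum_dlC (q m : ℕ) : ∑ l ∈ Ico 0 m, dlC q l = min m (2 * q - 1) := by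
  induction m with
  | zero => simp
  | succ m ih =>
    rw [Finset.sum_Ico_succ_top (Nat.zero_le m), ih]
    unfold dlC
    split_ifs <;> omega

theorem deg_test {q m : ℕ} (i j : Fin N) (hi : i.val = 0) (hj : j.val = m) :
    ∑ l ∈ Ico 0 m, dlC q l + od (parC N q) i j = 2 * min ((m + 1) / 2) q := by
  rw [sum_dlC]
  unfold od parC
  simp only [decide_eq_decide, hi, hj]
  rcases Nat.eq_zero_or_pos q with hq | hq
  · rw [if_pos (by omega)]
    omega
  · by_cases h2 : m % 2 = 0 ∧ m < 2 * q
    · rw [if_pos (by
        constructor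
        · exact fun _ => h2
        · exact fun _ => ⟨trivial, by omega⟩)]
      omega
    · rw [if_neg (by
        intro h3
        exact h2 (h3.1 ⟨trivial, by omega⟩))]
      omega

/-- the number of the odd indices -/
theorem qn_parC {q : ℕ} (h : 2 * q ≤ N) : qn (parC N q) = q := by
  unfold qn
  have h1 : (univ.filter fun i : Fin N => parC N q i = true) =
      (univ : Finset (Fin q)).map ⟨fun j : Fin q => (⟨2 * j.val, by omega⟩ : Fin N),
        fun a b hab => by
        have := congrArg Fin.val hab
        simp only at this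
        exact Fin.ext (by omega)⟩ := by
    ext i
    rw [mem_filter, mem_map, parC, decide_eq_true_eq]
    constructor
    · rintro ⟨_, h2, h3⟩
      exact ⟨⟨i.val / 2, by omega⟩, mem_univ _, Fin.ext (by
        show 2 * (i.val / 2) = i.val
        omega)⟩
    · rintro ⟨j, _, rfl⟩
      refine ⟨mem_univ _, ?_, ?_⟩
      · show 2 * j.val % 2 = 0
        omega
      · show 2 * j.val < 2 * q
        omega
  rw [h1, card_map, card_univ, Fintype.card_fin]

theorem Mp_chain (q : ℕ) (s t : K) :
    Mp (parC N q) (s • Lo K N + t • Up K N) = CH K N (dlC q) s t := by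
  ext1 i j
  rw [Mp, CH, Matrix.of_apply]
  by_cases h1 : i.val + 1 = j.val
  · rw [od_parC i j h1, min_eq_left (by omega)]
  · by_cases h2 : j.val + 1 = i.val
    · rw [od_comm, od_parC j i h2, min_eq_right (by omega)]
    · have h3 : (s • Lo K N + t • Up K N) i j = 0 := by
        rw [Matrix.add_apply, Matrix.smul_apply, Matrix.smul_apply, Lo, Up, Matrix.of_apply,
          Matrix.of_apply, if_neg (by omega), if_neg h1, smul_zero, smul_zero, add_zero]
      rw [h3, C_0, mul_zero, mul_zero]

theorem Mp_single {n : Type*} [Fintype n] [DecidableEq n] (par : n → Bool) (i j : n) :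
    Mp par (Matrix.single i j (1 : K)) = Matrix.single i j (X ^ od par i j : K[X]) := by
  ext1 a b
  rw [Mp]
  by_cases h : i = a ∧ j = b
  · obtain ⟨rfl, rfl⟩ := h
    rw [Matrix.single_apply_same, Matrix.single_apply_same, C_1, mul_one]
  · rw [Matrix.single_apply_of_ne _ _ _ _ _ h, Matrix.single_apply_of_ne _ _ _ _ _ h, C_0,
      mul_zero]

theorem trace_mul_single' {n : Type*} [Fintype n] [DecidableEq n] {R : Type*} [CommRing R]
    (M : Matrix n n R) (i j : n) (c : R) : (M * Matrix.single i j c).trace = M j i * c := by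
  rw [Matrix.trace_mul_single]
  simp [mul_comm]

/-- the test directions -/
theorem inner_test [CharZero K] {q m : ℕ} (hm : 1 ≤ m) (hN : m < N) {s t : K}
    (hst : ¬ (s = 0 ∧ t = 0)) : ∃ A : Matrix (Fin N) (Fin N) K, A.trace = 0 ∧
      (∀ j, j < m → (CH K N (dlC q) s t ^ j * Mp (parC N q) A).trace = 0) ∧
      ((CH K N (dlC q) s t ^ m * Mp (parC N q) A).trace).coeff (2 * min ((m + 1) / 2) q) ≠ 0 := by
  have h0N : 0 < N := by omega
  by_cases ht : t = 0
  · have hs : s ≠ 0 := fun h => hst ⟨h, ht⟩
    refine ⟨Matrix.single ⟨0, h0N⟩ ⟨m, hN⟩ 1, ?_, ?_, ?_⟩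
    · rw [Matrix.trace_single_eq_of_ne]
      intro h
      have := congrArg Fin.val h
      simp only at this
      omega
    · intro j hj
      rw [Mp_single, trace_mul_single', CH_zero' _ _ _ _ _ _ (by simpa using hj), zero_mul]
    · rw [Mp_single, trace_mul_single', CH_top' _ _ _ _ _ _ (by simp), mul_right_comm, ← pow_add]
      simp only []
      rw [deg_test (q := q) (⟨0, h0N⟩ : Fin N) ⟨m, hN⟩ rfl rfl, mul_comm, coeff_C_mul, coeff_X_pow,
        if_pos rfl, mul_one]
      exact pow_ne_zero _ hs
  · refine ⟨Matrix.single ⟨m, hN⟩ ⟨0, h0N⟩ 1, ?_, ?_, ?_⟩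
    · rw [Matrix.trace_single_eq_of_ne]
      intro h
      have := congrArg Fin.val h
      simp only at this
      omega
    · intro j hj
      rw [Mp_single, trace_mul_single', CH_zero _ _ _ _ _ _ (by simpa using hj), zero_mul]
    · rw [Mp_single, trace_mul_single', CH_top _ _ _ _ _ _ (by simp), mul_right_comm, ← pow_add,
        od_comm]
      simp only []
      rw [deg_test (q := q) (⟨0, h0N⟩ : Fin N) ⟨m, hN⟩ rfl rfl, mul_comm, coeff_C_mul, coeff_X_pow,
        if_pos rfl, mul_one]
      exact pow_ne_zero _ ht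

/-- the degree -/
theorem inner_deg [CharZero K] {q : ℕ} (h : 2 * q ≤ N) (A : Matrix (Fin N) (Fin N) K) (m : ℕ) :
    (phi K false m (Mp (parC N q) A)).natDegree ≤ 2 * min (m / 2) q := by
  have h1 : (phi K false m (Mp (parC N q) A)).natDegree ≤ 2 * q := by
    have h2 := ek_Mp_natDegree_le (parC N q) A m
    rw [qn_parC h] at h2
    unfold phi
    rw [if_neg (by decide)]
    exact h2
  have h3 : (phi K false m (Mp (parC N q) A)).natDegree ≤ m :=
    phi_natDegree_le (Mp_natDegree (parC N q) A) false m
  have h4 := phi_Mp_neg (parC N q) A false m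
  rw [natDegree_le_iff_coeff_eq_zero]
  intro d hd
  rcases Nat.even_or_odd d with hev | hod
  · refine coeff_eq_zero_of_natDegree_lt ?_
    obtain ⟨a, rfl⟩ := hev
    omega
  · exact coeff_zero_of_even h4 hod

end Pool.Agent.helper90.QTA
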