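import Mathlib
import Pool.Agent.helper90.QTA.Chain
import Pool.Agent.helper49.QA.Index

/-!
# Points with small stabilisers: preparations
-/

set_option autoImplicit false
set_option linter.unusedSectionVars false

namespace Pool.Agent.helper90.QTA

open Pool.Agent.helper5.AS Finset Polynomial Pool.Agent.helper49.QA Pool.Agent.helper90.MF
open Pool.Agent.helper5.ASQ (Invol even oddc brk IsContraction)

variable {K : Type*} [Field K] {N : ℕ}

/-- a linear map which is injective on the vectors with sum zero -/
theorem exists_f (K : Type*) [Field K] (N : ℕ) : ∃ f : (Fin N → K) →ₗ[K] (Fin (N - 1) → K),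
    ∀ d : Fin N → K, ∑ i, d i = 0 → f d = 0 → d = 0 := by
  refine ⟨LinearMap.funLeft K K fun i : Fin (N - 1) => (⟨i.val, by omega⟩ : Fin N),
    fun d hd hf => ?_⟩
  have h1 : ∀ i : Fin N, i.val < N - 1 → d i = 0 := fun i hi =>
    congrFun hf (⟨i.val, hi⟩ : Fin (N - 1))
  funext i
  by_cases hi : i.val < N - 1
  · exact h1 i hi
  · rw [Finset.sum_eq_single i] at hd
    · exact hd
    · intro j _ hj
      refine h1 j ?_
      have h2 : j.val ≠ i.val := fun h => hj (Fin.ext h)
      omega
    · intro h
      exact absurd (mem_univ i) h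

/-- the matrix of an involutive permutation -/
def pmat {n : Type*} [DecidableEq n] (K : Type*) [Field K] (π : n → n) : Matrix n n K :=
  Matrix.of fun i j => if π i = j then 1 else 0

section pmat

variable {n : Type*} [Fintype n] [DecidableEq n] {π : n → n} (hπ : ∀ i, π (π i) = i)

theorem pmat_mul (π : n → n) (M : Matrix n n K) (i j : n) : (pmat K π * M) i j = M (π i) j := by
  rw [Matrix.mul_apply, Finset.sum_eq_single (π i)]
  · rw [pmat, Matrix.of_apply, if_pos rfl, one_mul]
  · intro k _ hk
    rw [pmat, Matrix.of_apply, if_neg hk.symm, zero_mul]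
  · intro h
    exact absurd (mem_univ _) h

include hπ in
theorem mul_pmat (M : Matrix n n K) (i j : n) : (M * pmat K π) i j = M i (π j) := by
  rw [Matrix.mul_apply, Finset.sum_eq_single (π j)]
  · rw [pmat, Matrix.of_apply, if_pos (hπ j), mul_one]
  · intro k _ hk
    rw [pmat, Matrix.of_apply, if_neg, mul_zero]
    intro h
    exact hk (by rw [← h, hπ])
  · intro h
    exact absurd (mem_univ _) h

include hπ in
theorem pmat_sq : pmat K π * pmat K π = 1 := by
  ext i j
  rw [pmat_mul, pmat, Matrix.of_apply, hπ, Matrix.one_apply]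

include hπ in
theorem pmat_conj (M : Matrix n n K) (i j : n) :
    (pmat K π * M * pmat K π) i j = M (π i) (π j) := by
  rw [mul_pmat hπ, pmat_mul]

theorem pmat_trace (π : n → n) :
    (pmat K π).trace = ((univ.filter fun i => π i = i).card : K) := by
  rw [Matrix.trace, Finset.card_filter, Nat.cast_sum]
  refine Finset.sum_congr rfl fun i _ => ?_
  rw [Matrix.diag_apply, pmat, Matrix.of_apply, Nat.cast_ite, Nat.cast_one, Nat.cast_zero]

end pmat

/-- the involution exchanging `2 j` and `2 j + 1` for `j < q` -/
def piq (N q : ℕ) (h : 2 * q ≤ N) (i : Fin N) : Fin N :=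
  if h1 : i.val < 2 * q then
    if h2 : i.val % 2 = 0 then ⟨i.val + 1, by omega⟩ else ⟨i.val - 1, by omega⟩
  else i

theorem piq_val {q : ℕ} (h : 2 * q ≤ N) (i : Fin N) : (piq N q h i).val =
    if i.val < 2 * q then (if i.val % 2 = 0 then i.val + 1 else i.val - 1) else i.val := by
  unfold piq
  split_ifs <;> rfl

theorem piq_piq {q : ℕ} (h : 2 * q ≤ N) (i : Fin N) : piq N q h (piq N q h i) = i := by
  apply Fin.ext
  rw [piq_val, piq_val]
  split_ifs <;> omega

theorem piq_fixed {q : ℕ} (h : 2 * q ≤ N) (i : Fin N) : piq N q h i = i ↔ 2 * q ≤ i.val := by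
  rw [Fin.ext_iff, piq_val]
  split_ifs <;> omega

theorem piq_card {q : ℕ} (h : 2 * q ≤ N) :
    (univ.filter fun i : Fin N => piq N q h i = i).card = N - 2 * q := by
  have h1 : (univ.filter fun i : Fin N => piq N q h i = i) =
      (univ.filter fun i : Fin N => i.val < 2 * q)ᶜ := by
    ext i
    rw [mem_filter, mem_compl, mem_filter, piq_fixed]
    simp
  have h2 : (univ.filter fun i : Fin N => i.val < 2 * q).card = 2 * q := by
    rw [Fin.card_filter_val_lt]
    omega
  rw [h1, card_compl, h2, Fintype.card_fin]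

end Pool.Agent.helper90.QTA
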