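import Mathlib
import Pool.Agent.helper90.QTA.Inner
import Pool.Agent.helper90.QTA.PermIdx

/-!
# Type AIII: the result
-/

set_option autoImplicit false
set_option linter.unusedSectionVars false

namespace Pool.Agent.helper90.QTA

open Pool.Agent.helper5.AS Finset Polynomial Pool.Agent.helper49.QA Pool.Agent.helper90.MF
open Pool.Agent.helper5.ASQ (Invol even oddc brk IsContraction)

variable {K : Type*} [Field K] [CharZero K] {g : Type*} [LieRing g] [LieAlgebra K g]
  {θ : Invol K g}

/-- the sign of an index -/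
def sg (K : Type*) [Field K] {n : Type*} (par : n → Bool) (i : n) : K :=
  if par i = true then -1 else 1

theorem sg_mul {n : Type*} (par : n → Bool) (i j : n) :
    sg K par i * sg K par j = if par i = par j then 1 else -1 := by
  unfold sg
  cases par i <;> cases par j <;> simp

section diag

variable {n : Type*} [Fintype n] [DecidableEq n] {r : Rz K n θ} {par : n → Bool}

theorem M_eq_Mp (hθ : ∀ x i j, r.ρ (θ.hom x) i j = sg K par i * sg K par j * r.ρ x i j) (a : g) :
    r.M a = Mp par (r.ρ a) := by
  ext1 i j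
  rw [Rz.M, Mp, Matrix.add_apply, Matrix.smul_apply, Matrix.map_apply, Matrix.map_apply]
  unfold even oddc
  rw [map_smul, map_smul, map_add, map_sub, Matrix.smul_apply, Matrix.smul_apply,
    Matrix.add_apply, Matrix.sub_apply, hθ, sg_mul]
  unfold od
  by_cases h : par i = par j
  · rw [if_pos h, if_pos h, one_mul, sub_self, smul_zero, C_0, smul_zero, add_zero, pow_zero,
      one_mul, ← two_mul, smul_eq_mul, ← mul_assoc, inv_mul_cancel₀ two_ne_zero, one_mul]
  · rw [if_neg h, if_neg h, pow_one, neg_one_mul, add_neg_cancel, smul_zero, C_0, zero_add,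
      sub_neg_eq_add, ← two_mul, smul_eq_mul, smul_eq_mul, ← mul_assoc (2 : K)⁻¹,
      inv_mul_cancel₀ two_ne_zero, one_mul]

theorem Y_par (hA : IsA r)
    (hθ : ∀ x i j, r.ρ (θ.hom x) i j = sg K par i * sg K par j * r.ρ x i j) (i j : n) :
    θ.hom (r.Y (Matrix.single i j 1)) =
      if par i = par j then r.Y (Matrix.single i j 1) else -r.Y (Matrix.single i j 1) := by
  apply r.inj
  have h1 : (Matrix.single i j (1 : K)).trace = if i = j then 1 else 0 := by
    by_cases h : i = j
    · rw [if_pos h, h, Matrix.trace_single_eq_same]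
    · rw [if_neg h, Matrix.trace_single_eq_of_ne _ _ _ h]
  ext a b
  have h2 : r.ρ (θ.hom (r.Y (Matrix.single i j 1))) a b =
      sg K par a * sg K par b * r.ρ (r.Y (Matrix.single i j 1)) a b := hθ _ a b
  have h3 : sg K par a * sg K par b * r.ρ (r.Y (Matrix.single i j 1)) a b =
      (if par i = par j then 1 else -1) * r.ρ (r.Y (Matrix.single i j 1)) a b := by
    rw [hA.prj, Matrix.sub_apply, Matrix.smul_apply, sg_mul, h1]
    by_cases hab : i = a ∧ j = b
    · obtain ⟨rfl, rfl⟩ := hab
      rfl
    · rw [Matrix.single_apply_of_ne _ _ _ _ _ hab, zero_sub]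
      by_cases h4 : a = b
      · rw [h4, if_pos rfl]
        by_cases h5 : i = j
        · rw [h5, if_pos rfl, if_pos rfl]
        · rw [if_neg h5, zero_div, zero_smul, neg_zero, mul_zero, mul_zero]
      · rw [Matrix.one_apply_ne h4, smul_zero, neg_zero, mul_zero, mul_zero]
  rw [h2, h3]
  split_ifs
  · rw [one_mul]
  · rw [neg_one_mul, map_neg, Matrix.neg_apply]

end diag

variable {N : ℕ} {k : Type*} [LieRing k] [LieAlgebra K k] {e : g ≃ₗ[K] k}

/-- a point with a small stabiliser, AIII -/
theorem inner_idx (he : IsContraction θ e) {r : Rz K (Fin N) θ} (hA : IsA r) {q : ℕ}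
    (hq : 2 * q ≤ N)
    (hθ : ∀ x i j, r.ρ (θ.hom x) i j = r.ρ x (piq N q hq i) (piq N q hq j)) :
    ∃ x0 : k →ₗ[K] K, Module.finrank K (stab x0) ≤ N - 1 := by
  set π := piq N q hq with hπ
  -- the odd and the even diagonal matrices
  let lam : Fin N → K := fun i => if i.val < 2 * q then
    (if i.val % 2 = 0 then ((i.val / 2 + 1 : ℕ) : K) else -((i.val / 2 + 1 : ℕ) : K)) else 0
  let mu' : Fin N → K := fun i => if i.val < 2 * q then 0 else (i.val : K)
  have hlamπ : ∀ i, lam (π i) = -lam i := by
    intro i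
    simp only [lam, hπ, piq_val]
    by_cases h1 : i.val < 2 * q
    · by_cases h2 : i.val % 2 = 0
      · have h3 : i.val + 1 < 2 * q := by omega
        have h4 : ¬ (i.val + 1) % 2 = 0 := by omega
        have h5 : (i.val + 1) / 2 = i.val / 2 := by omega
        simp only [h1, h2, h3, h4, h5, if_true, if_false]
      · have h3 : i.val - 1 < 2 * q := by omega
        have h4 : (i.val - 1) % 2 = 0 := by omega
        have h5 : (i.val - 1) / 2 = i.val / 2 := by omega
        simp only [h1, h2, h3, h4, h5, if_true, if_false, neg_neg]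
    · simp only [h1, if_false, neg_zero]
  have hmuπ : ∀ i, mu' (π i) = mu' i := by
    intro i
    simp only [mu', hπ, piq_val]
    by_cases h1 : i.val < 2 * q
    · by_cases h2 : i.val % 2 = 0
      · have h3 : i.val + 1 < 2 * q := by omega
        simp only [h1, h2, h3, if_true]
      · have h3 : i.val - 1 < 2 * q := by omega
        simp only [h1, h2, h3, if_true, if_false]
    · simp only [h1, if_false]
  have hππ : ∀ i, π (π i) = i := fun i => piq_piq hq i
  have htr : (Matrix.diagonal lam).trace = 0 := by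
    rw [Matrix.trace_diagonal]
    have h1 : ∑ i, lam i = ∑ i, lam (π i) :=
      (Equiv.sum_comp (⟨π, π, hππ, hππ⟩ : Equiv.Perm (Fin N)) lam).symm
    have h2 : ∑ i, lam i = -∑ i, lam i := by
      conv_lhs => rw [h1]
      rw [← Finset.sum_neg_distrib]
      exact Finset.sum_congr rfl fun i _ => hlamπ i
    exact self_eq_neg.1 h2
  let a1 := r.Y (Matrix.diagonal lam)
  let a0 := r.Y (Matrix.diagonal mu')
  set c : K := (Matrix.diagonal mu').trace / (Fintype.card (Fin N) : K) with hc
  have h1 : r.ρ a1 = Matrix.diagonal lam := hA.of_tr htr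
  have h0 : r.ρ a0 = Matrix.diagonal (fun i => mu' i - c) := by
    show r.ρ (r.Y _) = _
    rw [hA.prj, ← hc, Matrix.smul_one_eq_diagonal, ← Matrix.diagonal_sub]
  have hinj : Function.Injective π := fun i j hij => by rw [← hππ i, hij, hππ]
  have hev : θ.hom a0 = a0 := by
    apply r.inj
    ext i j
    rw [hθ, h0]
    by_cases hij : i = j
    · rw [hij, Matrix.diagonal_apply_eq, Matrix.diagonal_apply_eq, hmuπ]
    · rw [Matrix.diagonal_apply_ne _ hij, Matrix.diagonal_apply_ne _ fun h => hij (hinj h)]
  have hod : θ.hom a1 = -a1 := by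
    apply r.inj
    ext i j
    rw [hθ, map_neg, Matrix.neg_apply, h1]
    by_cases hij : i = j
    · rw [hij, Matrix.diagonal_apply_eq, Matrix.diagonal_apply_eq, hlamπ]
    · rw [Matrix.diagonal_apply_ne _ hij, Matrix.diagonal_apply_ne _ fun h => hij (hinj h),
        neg_zero]
  -- equal values of `lam`
  have hlam : ∀ i j : Fin N, i ≠ j → lam i = lam j → 2 * q ≤ i.val ∧ 2 * q ≤ j.val := by
    intro i j hij h
    have hij' : i.val ≠ j.val := fun h => hij (Fin.ext h)
    have hpos : ∀ a : ℕ, ((a + 1 : ℕ) : K) ≠ 0 := fun a => Nat.cast_ne_zero.2 (Nat.succ_ne_zero a)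
    have hne : ∀ a b : ℕ, ((a + 1 : ℕ) : K) ≠ -((b + 1 : ℕ) : K) := by
      intro a b hab
      have h2 : (((a + 1) + (b + 1) : ℕ) : K) = 0 := by
        rw [Nat.cast_add, hab, neg_add_cancel]
      exact Nat.cast_ne_zero.2 (by omega) h2
    simp only [lam] at h
    by_cases hi : i.val < 2 * q
    · exfalso
      by_cases hj : j.val < 2 * q
      · by_cases hi2 : i.val % 2 = 0
        · by_cases hj2 : j.val % 2 = 0
          · simp only [hi, hj, hi2, hj2, if_true] at h
            have h3 := Nat.cast_injective h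
            omega
          · simp only [hi, hj, hi2, hj2, if_true, if_false] at h
            exact hne _ _ h
        · by_cases hj2 : j.val % 2 = 0
          · simp only [hi, hj, hi2, hj2, if_true, if_false] at h
            exact hne _ _ h.symm
          · simp only [hi, hj, hi2, hj2, if_true, if_false] at h
            have h3 := Nat.cast_injective (neg_injective h)
            omega
      · by_cases hi2 : i.val % 2 = 0
        · simp only [hi, hj, hi2, if_true, if_false] at h
          exact hpos _ h
        · simp only [hi, hj, hi2, if_true, if_false] at h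
          exact hpos _ (neg_eq_zero.1 h)
    · by_cases hj : j.val < 2 * q
      · exfalso
        by_cases hj2 : j.val % 2 = 0
        · simp only [hi, hj, hj2, if_true, if_false] at h
          exact hpos _ h.symm
        · simp only [hi, hj, hj2, if_true, if_false] at h
          exact hpos _ (neg_eq_zero.1 h.symm)
      · omega
  obtain ⟨f, hf⟩ := exists_f K N
  refine ⟨r.pnt e (a0 + a1), r.finrank_stab_le he hev hod h1 h0 ?_ ?_ f ?_⟩
  · intro x hx i j hij h
    obtain ⟨hi, hj⟩ := hlam i j hij h
    have h2 := hθ x i j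
    rw [hπ, (piq_fixed hq i).2 hi, (piq_fixed hq j).2 hj, hx, map_neg, Matrix.neg_apply] at h2
    exact self_eq_neg.1 h2.symm
  · intro i j hij h h2
    obtain ⟨hi, hj⟩ := hlam i j hij h
    simp only [mu', if_neg (not_lt.2 hi), if_neg (not_lt.2 hj)] at h2
    exact hij (Fin.ext (Nat.cast_injective (sub_left_injective h2)))
  · intro x d hd hfd
    refine hf d ?_ hfd
    have h2 := hA.tr0 x
    rwa [hd, Matrix.trace_diagonal] at h2

/-- the data of type AIII for the realisation in the chain form -/
theorem inner_data (he : IsContraction θ e) {r : Rz K (Fin N) θ} (hA : IsA r) {q : ℕ}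
    (hq : 2 * q ≤ N)
    (hθ : ∀ x i j, r.ρ (θ.hom x) i j = sg K (parC N q) i * sg K (parC N q) j * r.ρ x i j)
    {x0 : k →ₗ[K] K} (hx0 : Module.finrank K (stab x0) ≤ N - 1) :
    ∃ p p' : k →ₗ[K] K, Data (fun i : Fin (N - 1) => r.gen e false (i.val + 2)
      (2 * min ((i.val + 2) / 2) q)) (fun i => i.val + 2) p p' x0 := by
  refine ⟨r.pnt e (r.Y (Lo K N)), r.pnt e (r.Y (Up K N)), Rz.data r he (fun _ => false)
    (fun i : Fin (N - 1) => i.val + 2) (fun i => 2 * min ((i.val + 2) / 2) q)
    (fun i j h => by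
      have h2 : i.val < j.val := h
      show i.val + 2 < j.val + 2
      omega) (fun i => by omega) ?_ _ _ ?_ x0 hx0⟩
  · intro i a
    rw [M_eq_Mp hθ]
    exact inner_deg hq _ _
  · intro s t hst i
    have hi := i.isLt
    obtain ⟨A, hA0, h1, h2⟩ := inner_test (K := K) (N := N) (q := q) (m := i.val + 1)
      (by omega) (by omega) hst
    have h3 : r.M (s • r.Y (Lo K N) + t • r.Y (Up K N)) = CH K N (dlC q) s t := by
      rw [M_eq_Mp hθ, map_add, map_smul, map_smul, hA.of_tr (Lo_trace K N),
        hA.of_tr (Up_trace K N), Mp_chain]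
    have h4 : r.M (r.Y A) = Mp (parC N q) A := by rw [M_eq_Mp hθ, hA.of_tr hA0]
    refine ⟨r.Y A, fun j hj => ?_, ?_⟩
    · rw [h3, h4]
      exact h1 j (by omega)
    · rw [h3, h4]
      exact h2

/-- type AIII, the chain form and the torus form -/
theorem quant_inner_aux (he : IsContraction θ e) {r r' : Rz K (Fin N) θ} (hA : IsA r)
    (hA' : IsA r') {q : ℕ} (hq : 2 * q ≤ N)
    (hθ : ∀ x i j, r.ρ (θ.hom x) i j = sg K (parC N q) i * sg K (parC N q) j * r.ρ x i j)
    (hθ' : ∀ x i j, r'.ρ (θ.hom x) i j = r'.ρ x (piq N q hq i) (piq N q hq j)) : Quant K k := by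
  obtain ⟨x0, hx0⟩ := inner_idx he hA' hq hθ'
  obtain ⟨p, p', hD⟩ := inner_data he hA hq hθ hx0
  refine quant_asm hA he (fun _ => false) _ _ hD fun i => ?_
  by_cases h : i.val + 2 ≤ 2 * min ((i.val + 2) / 2) q + 2
  · refine limQ_of_hasQ θ e (hasQ_H hA false _) ?_ h
    exact r.degree_le false _ _ fun a => by
      rw [M_eq_Mp hθ]
      exact inner_deg hq _ _
  · rw [H_false]
    refine limQ_ek θ e r.Y (parC N q) (Y_par hA hθ) (CA r) (fun ξ k m => CA_mem r ξ k m) _ _ ?_
    have h2 := qn_parC (N := N) hq
    unfold qn at h2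
    rw [h2]
    omega

end Pool.Agent.helper90.QTA
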