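import Mathlib
import Pool.Agent.helper90.QTA.InnerQ

/-!
# Type AIII: the final form
-/

set_option autoImplicit false
set_option linter.unusedSectionVars false

namespace Pool.Agent.helper90.QTA

open Pool.Agent.helper5.AS Finset Polynomial Pool.Agent.helper49.QA Pool.Agent.helper90.MF
open Pool.Agent.helper5.ASQ (Invol even oddc brk IsContraction)

variable {K : Type*} [Field K] [CharZero K] {g : Type*} [LieRing g] [LieAlgebra K g]
  {θ : Invol K g}

theorem sg_sq {n : Type*} (par : n → Bool) (i : n) : sg K par i * sg K par i = 1 := by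
  rw [sg_mul, if_pos rfl]

theorem sg_trace {n : Type*} [Fintype n] [DecidableEq n] (par : n → Bool) :
    (Matrix.diagonal (sg K par)).trace = (Fintype.card n : K) - 2 * (qn par : K) := by
  have h1 : ∀ i, sg K par i = 1 - 2 * (if par i = true then 1 else 0) := by
    intro i
    unfold sg
    split_ifs
    · norm_num
    · norm_num
  rw [Matrix.trace_diagonal, Finset.sum_congr rfl fun i _ => h1 i, Finset.sum_sub_distrib,
    Finset.sum_const, Finset.card_univ, nsmul_eq_mul, mul_one, ← Finset.mul_sum, qn,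
    Finset.card_filter, Nat.cast_sum]
  congr 3
  ext i
  rw [Nat.cast_ite, Nat.cast_one, Nat.cast_zero]

variable {n : Type*} [Fintype n] [DecidableEq n] {k : Type*} [LieRing k] [LieAlgebra K k]
  {e : g ≃ₗ[K] k}

theorem conj_hom {m : Type*} [Fintype m] [DecidableEq m] {r : Rz K n θ} {S : Matrix n n K}
    (hθ : ∀ x, r.ρ (θ.hom x) = S * r.ρ x * S) {P : Matrix m n K} {Q : Matrix n m K}
    (hPQ : P * Q = 1) (hQP : Q * P = 1) (x : g) :
    (r.conj P Q hPQ hQP).ρ (θ.hom x) = (P * S * Q) * (r.conj P Q hPQ hQP).ρ x * (P * S * Q) := by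
  rw [Rz.conj_ρ, Rz.conj_ρ, hθ]
  calc P * (S * r.ρ x * S) * Q = P * S * (1 : Matrix n n K) * r.ρ x * (1 : Matrix n n K) * S * Q := by
        simp only [Matrix.mul_assoc, Matrix.one_mul]
    _ = _ := by
        rw [← hQP]
        simp only [Matrix.mul_assoc]

theorem quant_inner_le (he : IsContraction θ e) {r : Rz K n θ} (hA : IsA r) {S : Matrix n n K}
    (hS : S * S = 1) (hθ : ∀ x, r.ρ (θ.hom x) = S * r.ρ x * S) {p q : ℕ}
    (hpq : p + q = Fintype.card n) (ht : S.trace = (p : K) - (q : K)) (hqp : q ≤ p) :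
    Quant K k := by
  set N := Fintype.card n with hN
  have hq : 2 * q ≤ N := by omega
  have hc : Fintype.card (Fin N) = Fintype.card n := Fintype.card_fin N
  have ht' : S.trace = (N : K) - 2 * (q : K) := by
    rw [ht, ← hpq, Nat.cast_add]
    ring
  obtain ⟨P, Q, h1, h2, h3⟩ := exists_equiv_invol (m := Fin N) hc hS
    (S' := Matrix.diagonal (sg K (parC N q))) (by
      rw [Matrix.diagonal_mul_diagonal, ← Matrix.diagonal_one]
      congr 1
      funext i
      exact sg_sq _ i) (by rw [sg_trace, qn_parC hq, ht', Fintype.card_fin])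
  obtain ⟨P', Q', h1', h2', h3'⟩ := exists_equiv_invol (m := Fin N) hc hS
    (S' := pmat K (piq N q hq)) (pmat_sq (piq_piq hq)) (by
      rw [pmat_trace, piq_card, ht', Nat.cast_sub hq, Nat.cast_mul, Nat.cast_two])
  refine quant_inner_aux he (hA.conj P Q h1 h2 hc) (hA.conj P' Q' h1' h2' hc) hq ?_ ?_
  · intro x i j
    rw [conj_hom hθ, h3, Matrix.mul_diagonal, Matrix.diagonal_mul]
    ring
  · intro x i j
    rw [conj_hom hθ, h3', pmat_conj (piq_piq hq)]

/-- **type AIII**: an involution `x ↦ S x S` with `S ^ 2 = 1` -/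
theorem quant_inner (he : IsContraction θ e) {r : Rz K n θ} (hA : IsA r) {S : Matrix n n K}
    (hS : S * S = 1) (hθ : ∀ x, r.ρ (θ.hom x) = S * r.ρ x * S) : Quant K k := by
  obtain ⟨p, q, hpq, ht⟩ := exists_trace hS
  rcases le_total q p with h | h
  · exact quant_inner_le he hA hS hθ hpq ht h
  · refine quant_inner_le he hA (S := -S) (by rw [neg_mul_neg, hS]) (fun x => ?_)
      (by rw [add_comm]; exact hpq) (p := q) (q := p) (by rw [Matrix.trace_neg, ht]; ring) h
    rw [hθ, Matrix.neg_mul, Matrix.neg_mul, Matrix.mul_neg, neg_neg]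

end Pool.Agent.helper90.QTA
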