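import Mathlib
import Pool.Agent.helper90.QTA.InnerF

/-!
# Outer involutions: the normal forms of the bilinear forms
-/

set_option autoImplicit false
set_option linter.unusedSectionVars false

namespace Pool.Agent.helper90.QTA

open Pool.Agent.helper5.AS Finset Polynomial Pool.Agent.helper49.QA Pool.Agent.helper90.MF
open Pool.Agent.helper5.ASQ (Invol even oddc brk IsContraction)

variable {K : Type*} [Field K] [CharZero K]

section jmat

variable {n : Type*} [Fintype n] [DecidableEq n]

/-- the matrix of the form with the involution `τ` of the indices and the signs `s` -/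
def jmat (K : Type*) [Field K] (τ : n → n) (s : n → Bool) : Matrix n n K :=
  Matrix.of fun i j => if τ i = j then sg K s i else 0

theorem jmat_mul (τ : n → n) (s : n → Bool) (M : Matrix n n K) (i j : n) :
    (jmat K τ s * M) i j = sg K s i * M (τ i) j := by
  rw [Matrix.mul_apply, Finset.sum_eq_single (τ i)]
  · rw [jmat, Matrix.of_apply, if_pos rfl]
  · intro k _ hk
    rw [jmat, Matrix.of_apply, if_neg hk.symm, zero_mul]
  · intro h
    exact absurd (mem_univ _) h

theorem mul_jmat {τ : n → n} (hτ : ∀ i, τ (τ i) = i) (s : n → Bool) (M : Matrix n n K)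
    (i j : n) : (M * jmat K τ s) i j = M i (τ j) * sg K s (τ j) := by
  rw [Matrix.mul_apply, Finset.sum_eq_single (τ j)]
  · rw [jmat, Matrix.of_apply, if_pos (hτ j)]
  · intro k _ hk
    rw [jmat, Matrix.of_apply, if_neg, mul_zero]
    intro h
    exact hk (by rw [← h, hτ])
  · intro h
    exact absurd (mem_univ _) h

variable {τ : n → n} (hτ : ∀ i, τ (τ i) = i) {s : n → Bool} {κ : K}
  (hs : ∀ i, sg K s (τ i) = κ * sg K s i)

include hτ hs in
theorem jmat_transpose : (jmat K τ s).transpose = κ • jmat K τ s := by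
  ext i j
  rw [Matrix.transpose_apply, Matrix.smul_apply, jmat, Matrix.of_apply, Matrix.of_apply]
  by_cases h : τ i = j
  · have h2 : τ j = i := by rw [← h, hτ]
    rw [if_pos h, if_pos h2, ← h, hs, smul_eq_mul]
  · have h2 : τ j ≠ i := fun h3 => h (by rw [← h3, hτ])
    rw [if_neg h, if_neg h2, smul_zero]

include hτ hs in
theorem jmat_inv : jmat K τ s * (κ • jmat K τ s) = 1 := by
  ext i j
  rw [jmat_mul, Matrix.smul_apply, jmat, Matrix.of_apply, hτ, smul_eq_mul]
  by_cases h : i = j
  · rw [if_pos h, h, Matrix.one_apply_eq, hs, ← mul_assoc, mul_comm (sg K s j) κ]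
    have h3 : κ * κ = 1 := by
      have h1 := hs (τ j)
      rw [hτ, hs, ← mul_assoc] at h1
      have h2 : sg K s j ≠ 0 := by
        unfold sg
        split_ifs
        · exact neg_ne_zero.2 one_ne_zero
        · exact one_ne_zero
      exact (mul_right_cancel₀ h2 ((one_mul _).trans h1)).symm
    calc κ * sg K s j * (κ * sg K s j) = (κ * κ) * (sg K s j * sg K s j) := by ring
      _ = 1 := by rw [h3, sg_sq, one_mul]
  · rw [if_neg h, mul_zero, mul_zero, Matrix.one_apply_ne h]

include hτ hs in
theorem jmat_det : (jmat K τ s).det ≠ 0 := by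
  intro h
  have h1 := congrArg Matrix.det (jmat_inv hτ hs)
  rw [Matrix.det_mul, h, zero_mul, Matrix.det_one] at h1
  exact zero_ne_one h1

include hτ hs in
theorem jmat_conj (A : Matrix n n K) (i j : n) :
    ((κ • jmat K τ s) * A.transpose * jmat K τ s) i j =
      sg K s i * sg K s j * A (τ j) (τ i) := by
  have h3 : sg K s i ≠ 0 := by
    unfold sg
    split_ifs
    · exact neg_ne_zero.2 one_ne_zero
    · exact one_ne_zero
  have h4 : κ * κ = 1 := by
    have h1 := hs (τ i)
    rw [hτ, hs, ← mul_assoc] at h1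
    exact (mul_right_cancel₀ h3 ((one_mul _).trans h1)).symm
  rw [mul_jmat hτ, Matrix.smul_mul, Matrix.smul_apply, jmat_mul, Matrix.transpose_apply, hs,
    smul_eq_mul]
  calc κ * (sg K s i * A (τ j) (τ i)) * (κ * sg K s j) =
        (κ * κ) * (sg K s i * sg K s j * A (τ j) (τ i)) := by ring
    _ = _ := by rw [h4, one_mul]

end jmat

variable {g : Type*} [LieRing g] [LieAlgebra K g] {θ : Invol K g}
  {n : Type*} [Fintype n] [DecidableEq n]

/-- conjugation of an outer involution -/
theorem conj_outer {m : Type*} [Fintype m] [DecidableEq m] {r : Rz K n θ} {J J' : Matrix n n K}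
    (hJ : J * J' = 1) (hθ : ∀ x, r.ρ (θ.hom x) = -(J' * (r.ρ x).transpose * J))
    {P : Matrix m n K} {Q : Matrix n m K} (hPQ : P * Q = 1) (hQP : Q * P = 1)
    {J1 J1' : Matrix m m K} (hJ1 : J1 * J1' = 1) (hP : P.transpose * J1 * P = J) (x : g) :
    (r.conj P Q hPQ hQP).ρ (θ.hom x) =
      -(J1' * ((r.conj P Q hPQ hQP).ρ x).transpose * J1) := by
  have hJ' : J' * J = 1 := mul_eq_one_comm.1 hJ
  have hJ1' : J1' * J1 = 1 := mul_eq_one_comm.1 hJ1
  have hQPt : P.transpose * Q.transpose = 1 := by
    rw [← Matrix.transpose_mul, hQP, Matrix.transpose_one]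
  have hPQt : Q.transpose * P.transpose = 1 := by
    rw [← Matrix.transpose_mul, hPQ, Matrix.transpose_one]
  have e1 : J * Q = P.transpose * J1 := by
    rw [← hP, Matrix.mul_assoc, hPQ, Matrix.mul_one]
  have e2 : P * J' = J1' * Q.transpose := by
    have h1 : Q.transpose * J = J1 * P := by
      rw [← hP, ← Matrix.mul_assoc, ← Matrix.mul_assoc, hPQt, Matrix.one_mul]
    calc P * J' = (J1' * J1) * P * J' := by rw [hJ1', Matrix.one_mul]
      _ = J1' * (Q.transpose * J) * J' := by rw [h1, Matrix.mul_assoc J1' J1 P]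
      _ = J1' * Q.transpose := by
        rw [Matrix.mul_assoc, Matrix.mul_assoc Q.transpose, hJ, Matrix.mul_one]
  rw [Rz.conj_ρ, Rz.conj_ρ, hθ, Matrix.mul_neg, Matrix.neg_mul]
  congr 1
  calc P * (J' * (r.ρ x).transpose * J) * Q = (P * J') * (r.ρ x).transpose * (J * Q) := by
        simp only [Matrix.mul_assoc]
    _ = J1' * Q.transpose * (r.ρ x).transpose * (P.transpose * J1) := by rw [e1, e2]
    _ = _ := by
        rw [Matrix.transpose_mul, Matrix.transpose_mul]
        simp only [Matrix.mul_assoc]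

/-- the polynomial matrix of an outer involution -/
theorem M_eq_Mo {r : Rz K n θ} {J J' : Matrix n n K}
    (hθ : ∀ x, r.ρ (θ.hom x) = -(J' * (r.ρ x).transpose * J)) (a : g) :
    r.M a = Mo K J J' (r.ρ a) := by
  rw [Rz.M, Mo]
  unfold even oddc
  rw [map_smul, map_smul, map_add, map_sub, hθ, ← sub_eq_add_neg, sub_neg_eq_add]

end Pool.Agent.helper90.QTA
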