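import Mathlib
import Pool.Agent.helper90.QTA.Outer

/-!
# Outer involutions: the chain form
-/

set_option autoImplicit false
set_option linter.unusedSectionVars false

namespace Pool.Agent.helper90.QTA

open Pool.Agent.helper5.AS Finset Polynomial Pool.Agent.helper49.QA Pool.Agent.helper90.MF
open Pool.Agent.helper5.ASQ (Invol even oddc brk IsContraction)

variable {K : Type*} [Field K] [CharZero K] {N : ℕ} {s : Fin N → Bool} {κ : K}
  (hs : ∀ i, sg K s (Fin.rev i) = κ * sg K s i)

theorem sg_ne {n : Type*} (s : n → Bool) (i : n) : sg K s i ≠ 0 := by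
  unfold sg
  split_ifs
  · exact neg_ne_zero.2 one_ne_zero
  · exact one_ne_zero

include hs in
theorem kap_sq (i : Fin N) : κ * κ = 1 := by
  have h1 := hs (Fin.rev i)
  rw [Fin.rev_rev, hs, ← mul_assoc] at h1
  exact (mul_right_cancel₀ (sg_ne s i) ((one_mul _).trans h1)).symm

include hs in
theorem sg_rev_rev (i j : Fin N) :
    sg K s (Fin.rev i) * sg K s (Fin.rev j) = sg K s i * sg K s j := by
  rw [hs, hs]
  calc κ * sg K s i * (κ * sg K s j) = κ * κ * (sg K s i * sg K s j) := by ring
    _ = _ := by rw [kap_sq hs i, one_mul]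

include hs in
theorem s_rev_iff (i j : Fin N) : s (Fin.rev i) = s (Fin.rev j) ↔ s i = s j := by
  have h := sg_rev_rev hs i j
  rw [sg_mul, sg_mul] at h
  have h2 : (1 : K) ≠ -1 := by
    intro h3
    have h4 : (2 : K) = 0 := by linear_combination h3
    exact two_ne_zero h4
  constructor
  · intro h3
    by_contra h4
    rw [if_pos h3, if_neg h4] at h
    exact h2 h
  · intro h3
    by_contra h4
    rw [if_neg h4, if_pos h3] at h
    exact h2 h.symm

/-- a matrix which is multiplied by a sign under the anti-involution -/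
theorem Mo_of_eig {J J' A : Matrix (Fin N) (Fin N) K} (a b : Fin N)
    (h : J' * A.transpose * J = (sg K s a * sg K s b) • A) :
    Mo K J J' A = (X ^ (if s a = s b then 1 else 0) : K[X]) • A.map C := by
  rw [Mo, h, sg_mul]
  split_ifs
  · rw [one_smul, sub_self, smul_zero, Matrix.map_zero _ C_0, zero_add, pow_one]
    congr 2
    rw [← two_smul K A, smul_smul, inv_mul_cancel₀ two_ne_zero, one_smul]
  · rw [neg_one_smul, add_neg_cancel, smul_zero, Matrix.map_zero _ C_0, smul_zero, add_zero,
      pow_zero, one_smul, sub_neg_eq_add]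
    congr 1
    rw [← two_smul K A, smul_smul, inv_mul_cancel₀ two_ne_zero, one_smul]

variable {dl : ℕ → ℕ} (hdl : ∀ i j : Fin N, i.val + 1 = j.val → dl i.val = if s i = s j then 1 else 0)

include hs hdl in
theorem Mo_chain (x y : K) :
    Mo K (jmat K Fin.rev s) (κ • jmat K Fin.rev s) (x • Lo K N + y • Up K N) =
      CH K N dl x y := by
  ext1 i j
  have h1 := jmat_conj (K := K) Fin.rev_rev hs (x • Lo K N + y • Up K N) i j
  have h2 : (x • Lo K N + y • Up K N) (Fin.rev j) (Fin.rev i) =
      (x • Lo K N + y • Up K N) i j := by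
    have hi := i.isLt
    have hj := j.isLt
    rw [Matrix.add_apply, Matrix.smul_apply, Matrix.smul_apply, Matrix.add_apply,
      Matrix.smul_apply, Matrix.smul_apply, Lo, Up, Matrix.of_apply, Matrix.of_apply,
      Matrix.of_apply, Matrix.of_apply, Fin.val_rev, Fin.val_rev]
    have e1 : (N - (j.val + 1) = N - (i.val + 1) + 1) = (i.val = j.val + 1) :=
      propext (by omega)
    have e2 : (N - (j.val + 1) + 1 = N - (i.val + 1)) = (i.val + 1 = j.val) :=
      propext (by omega)
    simp only [e1, e2]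
  rw [h2] at h1
  set T := x • Lo K N + y • Up K N with hT
  rw [Mo, Matrix.add_apply, Matrix.smul_apply, Matrix.map_apply, Matrix.map_apply,
    Matrix.smul_apply, Matrix.smul_apply, Matrix.sub_apply, Matrix.add_apply, h1, sg_mul, CH,
    Matrix.of_apply, ← hT]
  have key : T i j ≠ 0 → dl (min i.val j.val) = if s i = s j then 1 else 0 := by
    intro h3
    by_cases h4 : i.val + 1 = j.val
    · rw [min_eq_left (by omega), hdl i j h4]
    · by_cases h5 : j.val + 1 = i.val
      · rw [min_eq_right (by omega), hdl j i h5]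
        simp only [eq_comm]
      · exfalso
        apply h3
        rw [hT, Matrix.add_apply, Matrix.smul_apply, Matrix.smul_apply, Lo, Up, Matrix.of_apply,
          Matrix.of_apply, if_neg (by omega), if_neg h4, smul_zero, smul_zero, add_zero]
  by_cases h3 : T i j = 0
  · rw [h3, mul_zero, sub_zero, add_zero, smul_zero, C_0, smul_zero, add_zero, mul_zero]
  · rw [key h3]
    split_ifs
    · rw [one_mul, sub_self, smul_zero, C_0, zero_add, ← two_mul, smul_eq_mul, smul_eq_mul,
        ← mul_assoc (2 : K)⁻¹, inv_mul_cancel₀ two_ne_zero, one_mul, pow_one]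
    · rw [neg_one_mul, add_neg_cancel, smul_zero, C_0, smul_zero, add_zero, sub_neg_eq_add,
        ← two_mul, smul_eq_mul, ← mul_assoc (2 : K)⁻¹, inv_mul_cancel₀ two_ne_zero, one_mul,
        pow_zero, one_mul]

/-- the test directions -/
def tst (K : Type*) [Field K] {N : ℕ} (a b : Fin N) : Matrix (Fin N) (Fin N) K :=
  Matrix.single a b 1 + Matrix.single (Fin.rev b) (Fin.rev a) 1

theorem tst_rev (a b i j : Fin N) : tst K a b (Fin.rev j) (Fin.rev i) = tst K a b i j := by
  rw [tst, Matrix.add_apply, Matrix.add_apply, Matrix.single_apply, Matrix.single_apply,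
    Matrix.single_apply, Matrix.single_apply, add_comm]
  congr 1
  · simp only [Fin.rev_inj, and_comm]
  · have e1 : (a = Fin.rev j ∧ b = Fin.rev i) = (Fin.rev b = i ∧ Fin.rev a = j) := by
      apply propext
      constructor
      · rintro ⟨rfl, rfl⟩
        exact ⟨Fin.rev_rev i, Fin.rev_rev j⟩
      · rintro ⟨rfl, rfl⟩
        exact ⟨(Fin.rev_rev a).symm, (Fin.rev_rev b).symm⟩
    simp only [e1]

include hs in
theorem tst_eig (a b : Fin N) :
    (κ • jmat K Fin.rev s) * (tst K a b).transpose * jmat K Fin.rev s =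
      (sg K s a * sg K s b) • tst K a b := by
  ext i j
  rw [jmat_conj Fin.rev_rev hs, tst_rev, Matrix.smul_apply, smul_eq_mul]
  rw [tst, Matrix.add_apply, Matrix.single_apply, Matrix.single_apply]
  by_cases h1 : a = i ∧ b = j
  · obtain ⟨rfl, rfl⟩ := h1
    rfl
  · rw [if_neg h1]
    by_cases h2 : Fin.rev b = i ∧ Fin.rev a = j
    · obtain ⟨rfl, rfl⟩ := h2
      rw [sg_rev_rev hs, mul_comm (sg K s b)]
    · rw [if_neg h2, add_zero, mul_zero, mul_zero]

theorem trace_tst (M : Matrix (Fin N) (Fin N) K[X]) (c : K[X]) (a b : Fin N) :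
    (M * (c • (tst K a b).map C)).trace = c * (M b a + M (Fin.rev a) (Fin.rev b)) := by
  have h : (tst K a b).map (C : K → K[X]) = Matrix.single a b 1 +
      Matrix.single (Fin.rev b) (Fin.rev a) 1 := by
    ext1 i j
    rw [Matrix.map_apply, tst, Matrix.add_apply, Matrix.add_apply, Matrix.single_apply,
      Matrix.single_apply, Matrix.single_apply, Matrix.single_apply, map_add]
    congr 1
    · split_ifs
      · rfl
      · exact C_0
    · split_ifs
      · rfl
      · exact C_0
  rw [Matrix.mul_smul, Matrix.trace_smul, h, Matrix.mul_add, Matrix.trace_add,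
    trace_mul_single', trace_mul_single', mul_one, mul_one, smul_eq_mul]

theorem tst_trace {a b : Fin N} (hab : a ≠ b) : (tst K a b).trace = 0 := by
  rw [tst, Matrix.trace_add, Matrix.trace_single_eq_of_ne _ _ _ hab,
    Matrix.trace_single_eq_of_ne _ _ _ (fun h => hab (Fin.rev_injective h).symm), add_zero]

include hs hdl in
theorem dl_sum {m : ℕ} (hm : m < N) :
    ∑ l ∈ Ico (N - 1 - m) (N - 1), dl l = ∑ l ∈ Ico 0 m, dl l := by
  rcases Nat.lt_or_ge N 2 with h2 | h2
  · obtain rfl : m = 0 := by omega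
    simp
  · have h1 := Finset.sum_Ico_reflect dl 0 (m := m) (n := N - 2) (by omega)
    have e1 : N - 2 + 1 - m = N - 1 - m := by omega
    have e2 : N - 2 + 1 - 0 = N - 1 := by omega
    rw [e1, e2] at h1
    rw [← h1]
    refine Finset.sum_congr rfl fun l hl => ?_
    rw [mem_Ico] at hl
    have h3 := hdl (⟨l, by omega⟩ : Fin N) ⟨l + 1, by omega⟩ rfl
    have h4 := hdl (Fin.rev (⟨l + 1, by omega⟩ : Fin N)) (Fin.rev ⟨l, by omega⟩) (by
      rw [Fin.val_rev, Fin.val_rev]
      show N - (l + 1 + 1) + 1 = N - (l + 1)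
      omega)
    rw [Fin.val_rev] at h4
    have h5 : N - ((⟨l + 1, by omega⟩ : Fin N).val + 1) = N - 2 - l := by
      show N - (l + 1 + 1) = N - 2 - l
      omega
    rw [h5] at h4
    rw [h3, h4]
    by_cases h6 : s (⟨l, by omega⟩ : Fin N) = s ⟨l + 1, by omega⟩
    · rw [if_pos h6, if_pos ((s_rev_iff hs _ _).2 h6.symm)]
    · rw [if_neg h6, if_neg fun h7 => h6 ((s_rev_iff hs _ _).1 h7).symm]

include hs hdl in
/-- the test directions -/
theorem outer_test {m : ℕ} (hm : 1 ≤ m) (hN : m < N) {x y : K} (hst : ¬ (x = 0 ∧ y = 0)) :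
    ∃ A : Matrix (Fin N) (Fin N) K, A.trace = 0 ∧
      (∀ j, j < m → (CH K N dl x y ^ j *
        Mo K (jmat K Fin.rev s) (κ • jmat K Fin.rev s) A).trace = 0) ∧
      ((CH K N dl x y ^ m * Mo K (jmat K Fin.rev s) (κ • jmat K Fin.rev s) A).trace).coeff
        (∑ l ∈ Ico 0 m, dl l + if s ⟨0, by omega⟩ = s ⟨m, hN⟩ then 1 else 0) ≠ 0 := by
  have h0N : 0 < N := by omega
  have hne : (⟨m, hN⟩ : Fin N) ≠ ⟨0, h0N⟩ := by
    intro h
    have := congrArg Fin.val h
    simp only at this
    omega
  have hcoef : ∀ (w d : ℕ) (c : K), c ≠ 0 →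
      (X ^ w * (X ^ d * C c + X ^ d * C c) : K[X]).coeff (d + w) ≠ 0 := by
    intro w d c hc
    have h1 : (X ^ w * (X ^ d * C c + X ^ d * C c) : K[X]) = C (2 * c) * X ^ (d + w) := by
      rw [C_mul, pow_add]
      have : (C 2 : K[X]) = 2 := rfl
      rw [this]
      ring
    rw [h1, coeff_C_mul, coeff_X_pow, if_pos rfl, mul_one]
    exact mul_ne_zero two_ne_zero hc
  by_cases hy : y = 0
  · have hx : x ≠ 0 := fun h => hst ⟨h, hy⟩
    refine ⟨tst K ⟨0, h0N⟩ ⟨m, hN⟩, tst_trace hne.symm, fun j hj => ?_, ?_⟩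
    · rw [Mo_of_eig _ _ (tst_eig hs _ _), trace_tst, CH_zero' _ _ _ _ _ _ (by simpa using hj),
        CH_zero' _ _ _ _ _ _ (by
          rw [Fin.val_rev, Fin.val_rev]
          show N - (m + 1) + j < N - (0 + 1)
          omega), add_zero, mul_zero]
    · rw [Mo_of_eig _ _ (tst_eig hs _ _), trace_tst, CH_top' _ _ _ _ _ _ (by simp),
        CH_top' _ _ _ _ _ _ (by
          rw [Fin.val_rev, Fin.val_rev]
          show N - (0 + 1) = N - (m + 1) + m
          omega), Fin.val_rev, Fin.val_rev]
      have e1 : N - ((⟨m, hN⟩ : Fin N).val + 1) = N - 1 - m := by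
        show N - (m + 1) = N - 1 - m
        omega
      have e2 : N - ((⟨0, h0N⟩ : Fin N).val + 1) = N - 1 := by
        show N - (0 + 1) = N - 1
        omega
      rw [e1, e2, dl_sum hs hdl hN]
      exact hcoef _ _ _ (pow_ne_zero _ hx)
  · refine ⟨tst K ⟨m, hN⟩ ⟨0, h0N⟩, tst_trace hne, fun j hj => ?_, ?_⟩
    · rw [Mo_of_eig _ _ (tst_eig hs _ _), trace_tst, CH_zero _ _ _ _ _ _ (by simpa using hj),
        CH_zero _ _ _ _ _ _ (by
          rw [Fin.val_rev, Fin.val_rev]
          show N - (m + 1) + j < N - (0 + 1)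
          omega), add_zero, mul_zero]
    · rw [Mo_of_eig _ _ (tst_eig hs _ _), trace_tst, CH_top _ _ _ _ _ _ (by simp),
        CH_top _ _ _ _ _ _ (by
          rw [Fin.val_rev, Fin.val_rev]
          show N - (0 + 1) = N - (m + 1) + m
          omega), Fin.val_rev, Fin.val_rev]
      have e1 : N - ((⟨m, hN⟩ : Fin N).val + 1) = N - 1 - m := by
        show N - (m + 1) = N - 1 - m
        omega
      have e2 : N - ((⟨0, h0N⟩ : Fin N).val + 1) = N - 1 := by
        show N - (0 + 1) = N - 1
        omega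
      rw [e1, e2, dl_sum hs hdl hN]
      simp only [eq_comm (a := s ⟨0, h0N⟩)]
      exact hcoef _ _ _ (pow_ne_zero _ hy)

end Pool.Agent.helper90.QTA
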