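import Mathlib
import Pool.Agent.helper90.QTA.OuterT
import Pool.Agent.helper49.QA.Square

/-!
# Types AI and AII
-/

set_option autoImplicit false
set_option linter.unusedSectionVars false

namespace Pool.Agent.helper90.QTA

open Pool.Agent.helper5.AS Finset Polynomial Pool.Agent.helper49.QA Pool.Agent.helper90.MF
open Pool.Agent.helper5.ASQ (Invol even oddc brk IsContraction)

variable {K : Type*} [Field K] [CharZero K] {g : Type*} [LieRing g] [LieAlgebra K g]
  {θ : Invol K g} {N : ℕ} {k : Type*} [LieRing k] [LieAlgebra K k] {e : g ≃ₗ[K] k}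

/-- the data of an outer involution in the chain form -/
theorem outer_data (he : IsContraction θ e) {r : Rz K (Fin N) θ} (hA : IsA r)
    {s : Fin N → Bool} {κ : K} (hs : ∀ i, sg K s (Fin.rev i) = κ * sg K s i) {dl : ℕ → ℕ}
    (hdl : ∀ i j : Fin N, i.val + 1 = j.val → dl i.val = if s i = s j then 1 else 0)
    (hθ : ∀ x, r.ρ (θ.hom x) =
      -((κ • jmat K Fin.rev s) * (r.ρ x).transpose * jmat K Fin.rev s))
    (c : Bool) (b : Fin (N - 1) → ℕ)
    (hb : ∀ (i : Fin (N - 1)) (h0 : 0 < N) (h1 : i.val + 1 < N), b i = ∑ l ∈ Ico 0 (i.val + 1),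
      dl l + if s ⟨0, h0⟩ = s ⟨i.val + 1, h1⟩ then 1 else 0)
    (hdeg : ∀ i, ∀ A : Matrix (Fin N) (Fin N) K, (phi K c (i.val + 2)
      (Mo K (jmat K Fin.rev s) (κ • jmat K Fin.rev s) A)).natDegree ≤ b i)
    {x0 : k →ₗ[K] K} (hx0 : Module.finrank K (stab x0) ≤ N - 1) :
    ∃ p p' : k →ₗ[K] K, Data (fun i : Fin (N - 1) => r.gen e c (i.val + 2) (b i))
      (fun i => i.val + 2) p p' x0 := by
  refine ⟨r.pnt e (r.Y (Lo K N)), r.pnt e (r.Y (Up K N)), Rz.data r he (fun _ => c)
    (fun i : Fin (N - 1) => i.val + 2) b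
    (fun i j h => by
      have h2 : i.val < j.val := h
      show i.val + 2 < j.val + 2
      omega) (fun i => by omega) ?_ _ _ ?_ x0 hx0⟩
  · intro i a
    rw [M_eq_Mo hθ]
    exact hdeg i _
  · intro x y hst i
    have hi := i.isLt
    obtain ⟨A, hA0, h1, h2⟩ := outer_test (K := K) hs hdl (m := i.val + 1)
      (by omega) (by omega) hst
    have h3 : r.M (x • r.Y (Lo K N) + y • r.Y (Up K N)) = CH K N dl x y := by
      rw [M_eq_Mo hθ, map_add, map_smul, map_smul, hA.of_tr (Lo_trace K N),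
        hA.of_tr (Up_trace K N), Mo_chain hs hdl]
    have h4 : r.M (r.Y A) = Mo K (jmat K Fin.rev s) (κ • jmat K Fin.rev s) A := by
      rw [M_eq_Mo hθ, hA.of_tr hA0]
    refine ⟨r.Y A, fun j hj => ?_, ?_⟩
    · rw [h3, h4]
      exact h1 j (by omega)
    · rw [h3, h4, hb i (by omega) (by omega)]
      exact h2

/-- the commuting lifts -/
theorem outer_quant (he : IsContraction θ e) {r : Rz K (Fin N) θ} (hA : IsA r)
    {s : Fin N → Bool} {κ : K}
    (hθ : ∀ x, r.ρ (θ.hom x) =
      -((κ • jmat K Fin.rev s) * (r.ρ x).transpose * jmat K Fin.rev s))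
    (c : Bool) (b : Fin (N - 1) → ℕ) (hb2 : ∀ i, i.val + 2 ≤ b i + 2)
    (hdeg : ∀ i, ∀ A : Matrix (Fin N) (Fin N) K, (phi K c (i.val + 2)
      (Mo K (jmat K Fin.rev s) (κ • jmat K Fin.rev s) A)).natDegree ≤ b i)
    {p p' x0 : k →ₗ[K] K} (hD : Data (fun i : Fin (N - 1) => r.gen e c (i.val + 2) (b i))
      (fun i => i.val + 2) p p' x0) : Quant K k := by
  refine quant_asm hA he (fun _ => c) _ _ hD fun i => ?_
  refine limQ_of_hasQ θ e (hasQ_H hA c _) ?_ (hb2 i)
  exact r.degree_le c _ _ fun a => by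
    rw [M_eq_Mo hθ]
    exact hdeg i _

/-! ## the degrees -/

theorem Mo_natDegree {n : Type*} [Fintype n] [DecidableEq n] (J J' A : Matrix n n K) (i j : n) :
    (Mo K J J' A i j).natDegree ≤ 1 := by
  rw [Mo, Matrix.add_apply, Matrix.smul_apply, Matrix.map_apply, Matrix.map_apply, smul_eq_mul]
  refine (natDegree_add_le _ _).trans (max_le ?_ ?_)
  · rw [natDegree_C]
    exact Nat.zero_le _
  · refine natDegree_mul_le.trans ?_
    rw [natDegree_C, natDegree_X]

/-- the degree bound of type AII -/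
theorem AII_deg {n : Type*} [Fintype n] [DecidableEq n] {J J' : Matrix n n K}
    (hJ : J.transpose = -J) (hJJ : J * J' = 1) (A : Matrix n n K) {D m : ℕ}
    (hD : Fintype.card n = 2 * D) (hm : D < m) :
    (phi K true m (Mo K J J' A)).natDegree ≤ m - 2 := by
  have hJJ' : J' * J = 1 := mul_eq_one_comm.1 hJJ
  have h1 : (phi K true m (Mo K J J' A)).natDegree ≤ m :=
    phi_natDegree_le (Mo_natDegree J J' A) true m
  have h2 := phi_Mo_neg (K := K) (κ := -1) (by ring) (by rw [neg_one_smul]; exact hJ) hJJ A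
    true m
  refine natDegree_le_sub_two h1 h2 ?_
  rw [phi_coeff_top (Mo_natDegree J J' A)]
  set A1 : Matrix n n K := (2 : K)⁻¹ • (A + J' * A.transpose * J) with hA1
  have h3 : (fun i j => (Mo K J J' A i j).coeff 1) = A1 := by
    funext i j
    rw [Mo, Matrix.add_apply, Matrix.smul_apply, Matrix.map_apply, Matrix.map_apply, smul_eq_mul,
      coeff_add, coeff_C_succ, zero_add, coeff_X_mul, coeff_C_zero]
  have h4 : (phi K true m fun i j => (Mo K J J' A i j).coeff 1) = phi K true m A1 := by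
    rw [h3]
  rw [h4]
  have hdet : J.det ≠ 0 := by
    intro h
    have h5 := congrArg Matrix.det hJJ
    rw [Matrix.det_mul, h, zero_mul, Matrix.det_one] at h5
    exact zero_ne_one h5
  have hJ't : J'.transpose = -J' := by
    have h6 : J'.transpose * J.transpose = 1 := by
      rw [← Matrix.transpose_mul, hJJ, Matrix.transpose_one]
    rw [hJ, Matrix.mul_neg] at h6
    have h7 : -J'.transpose * J = 1 := by rw [Matrix.neg_mul]; exact h6
    have h8 : -J'.transpose = J' := by
      calc -J'.transpose = -J'.transpose * (J * J') := by rw [hJJ, Matrix.mul_one]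
        _ = J' := by rw [← Matrix.mul_assoc, h7, Matrix.one_mul]
    rw [← h8, neg_neg, h8]
  refine phi_eq_zero_of_square hJ hdet (D := D) ?_ ?_ hm
  · rw [hA1, Matrix.transpose_smul, Matrix.transpose_add, Matrix.transpose_mul,
      Matrix.transpose_mul, Matrix.transpose_transpose, hJ, hJ't]
    rw [Matrix.smul_mul, Matrix.mul_smul]
    congr 1
    rw [Matrix.add_mul, Matrix.mul_add, ← Matrix.mul_assoc J, ← Matrix.mul_assoc J, hJJ,
      Matrix.one_mul, add_comm]
    congr 1
    rw [Matrix.mul_neg, Matrix.mul_neg, Matrix.neg_mul, Matrix.neg_mul, Matrix.neg_mul, neg_neg,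
      Matrix.mul_assoc, Matrix.mul_assoc, hJJ', Matrix.mul_one]
  · rw [← hD]
    exact gd_natDegree_le A1

end Pool.Agent.helper90.QTA
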