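import Mathlib
import Pool.Agent.helper90.QTA.OuterQ
import Pool.Agent.helper49.QA.LASymm
import Pool.Agent.helper49.QA.LASkew
import Pool.Agent.helper49.QA.Pf

/-!
# Types AI and AII: the final forms
-/

set_option autoImplicit false
set_option linter.unusedSectionVars false

namespace Pool.Agent.helper90.QTA

open Pool.Agent.helper5.AS Finset Polynomial Pool.Agent.helper49.QA Pool.Agent.helper90.MF
open Pool.Agent.helper5.ASQ (Invol even oddc brk IsContraction)

variable {K : Type*} [Field K] [CharZero K] {g : Type*} [LieRing g] [LieAlgebra K g]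
  {θ : Invol K g} {N : ℕ} {k : Type*} [LieRing k] [LieAlgebra K k] {e : g ≃ₗ[K] k}

/-- a point with a small stabiliser, AI -/
theorem AI_idx (he : IsContraction θ e) {r : Rz K (Fin N) θ} (hA : IsA r)
    (hθ : ∀ x i j, r.ρ (θ.hom x) i j = -r.ρ x j i) :
    ∃ x0 : k →ₗ[K] K, Module.finrank K (stab x0) ≤ N - 1 := by
  let lam' : Fin N → K := fun i => (i.val : K)
  let a1 := r.Y (Matrix.diagonal lam')
  set c : K := (Matrix.diagonal lam').trace / (Fintype.card (Fin N) : K) with hc
  have h1 : r.ρ a1 = Matrix.diagonal (fun i => lam' i - c) := by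
    show r.ρ (r.Y _) = _
    rw [hA.prj, ← hc, Matrix.smul_one_eq_diagonal, ← Matrix.diagonal_sub]
  have h0 : r.ρ (0 : g) = Matrix.diagonal (fun _ => (0 : K)) := by
    rw [map_zero, Matrix.diagonal_zero]
  have hod : θ.hom a1 = -a1 := by
    apply r.inj
    ext i j
    rw [hθ, map_neg, Matrix.neg_apply, h1]
    congr 1
    by_cases hij : i = j
    · rw [hij]
    · rw [Matrix.diagonal_apply_ne _ hij, Matrix.diagonal_apply_ne' _ hij]
  have hlam : ∀ i j : Fin N, i ≠ j → lam' i - c ≠ lam' j - c := fun i j hij h =>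
    hij (Fin.ext (Nat.cast_injective (sub_left_injective h)))
  obtain ⟨f, hf⟩ := exists_f K N
  refine ⟨r.pnt e (0 + a1), r.finrank_stab_le he (map_zero _) hod h1 h0 ?_ ?_ f ?_⟩
  · intro x _ i j hij h
    exact absurd h (hlam i j hij)
  · intro i j hij h
    exact absurd h (hlam i j hij)
  · intro x d hd hfd
    refine hf d ?_ hfd
    have h2 := hA.tr0 x
    rwa [hd, Matrix.trace_diagonal] at h2

/-- the signs of the torus form of type AII -/
def sod (N : ℕ) (i : Fin N) : Bool := decide (i.val % 2 = 1)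

theorem sg_sod {D : ℕ} (h : 2 * D ≤ 2 * D) (i : Fin (2 * D)) :
    sg K (sod (2 * D)) (piq (2 * D) D h i) = -1 * sg K (sod (2 * D)) i := by
  unfold sg sod
  simp only [decide_eq_true_eq, piq_val, i.isLt, if_true]
  by_cases h2 : i.val % 2 = 0
  · rw [if_pos h2, if_pos (by omega), if_neg (by omega), mul_one]
  · rw [if_neg h2, if_neg (by omega), if_pos (by omega), neg_mul_neg, one_mul]

/-- a point with a small stabiliser, AII -/
theorem AII_idx {D : ℕ} (he : IsContraction θ e) {r : Rz K (Fin (2 * D)) θ} (hA : IsA r)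
    (hθ : ∀ x i j, r.ρ (θ.hom x) i j = -(sg K (sod (2 * D)) i * sg K (sod (2 * D)) j *
      r.ρ x (piq (2 * D) D le_rfl j) (piq (2 * D) D le_rfl i))) :
    ∃ x0 : k →ₗ[K] K, Module.finrank K (stab x0) ≤ 2 * D - 1 := by
  set π := piq (2 * D) D le_rfl with hπ
  have hππ : ∀ i, π (π i) = i := fun i => piq_piq le_rfl i
  have hinj : Function.Injective π := fun i j hij => by rw [← hππ i, hij, hππ]
  let lam' : Fin (2 * D) → K := fun i => ((i.val / 2 : ℕ) : K)
  let mu : Fin (2 * D) → K := sg K (sod (2 * D))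
  have hlamπ : ∀ i, lam' (π i) = lam' i := by
    intro i
    show (((π i).val / 2 : ℕ) : K) = ((i.val / 2 : ℕ) : K)
    congr 1
    rw [hπ, piq_val]
    split_ifs <;> omega
  have hmuπ : ∀ i, mu (π i) = -mu i := by
    intro i
    have h := sg_sod (K := K) (D := D) le_rfl i
    rw [neg_one_mul] at h
    exact h
  have htr : (Matrix.diagonal mu).trace = 0 := by
    rw [Matrix.trace_diagonal]
    have h1 : ∑ i, mu i = ∑ i, mu (π i) :=
      (Equiv.sum_comp (⟨π, π, hππ, hππ⟩ : Equiv.Perm (Fin (2 * D))) mu).symm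
    have h2 : ∑ i, mu i = -∑ i, mu i := by
      conv_lhs => rw [h1]
      rw [← Finset.sum_neg_distrib]
      exact Finset.sum_congr rfl fun i _ => hmuπ i
    exact self_eq_neg.1 h2
  let a1 := r.Y (Matrix.diagonal lam')
  let a0 := r.Y (Matrix.diagonal mu)
  set c : K := (Matrix.diagonal lam').trace / (Fintype.card (Fin (2 * D)) : K) with hc
  have h1 : r.ρ a1 = Matrix.diagonal (fun i => lam' i - c) := by
    show r.ρ (r.Y _) = _
    rw [hA.prj, ← hc, Matrix.smul_one_eq_diagonal, ← Matrix.diagonal_sub]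
  have h0 : r.ρ a0 = Matrix.diagonal mu := hA.of_tr htr
  have hev : θ.hom a0 = a0 := by
    apply r.inj
    ext i j
    rw [hθ, h0]
    by_cases hij : i = j
    · rw [hij, Matrix.diagonal_apply_eq, Matrix.diagonal_apply_eq, hmuπ, sg_sq, one_mul, neg_neg]
    · rw [Matrix.diagonal_apply_ne _ hij, Matrix.diagonal_apply_ne _ fun h => hij (hinj h).symm,
        mul_zero, neg_zero]
  have hod : θ.hom a1 = -a1 := by
    apply r.inj
    ext i j
    rw [hθ, map_neg, Matrix.neg_apply, h1]
    congr 1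
    by_cases hij : i = j
    · rw [hij, Matrix.diagonal_apply_eq, Matrix.diagonal_apply_eq, hlamπ, sg_sq, one_mul]
    · rw [Matrix.diagonal_apply_ne _ hij, Matrix.diagonal_apply_ne _ fun h => hij (hinj h).symm,
        mul_zero]
  have hlam : ∀ i j : Fin (2 * D), i ≠ j → lam' i - c = lam' j - c →
      π i = j ∧ i.val % 2 ≠ j.val % 2 := by
    intro i j hij h
    have h2 : i.val / 2 = j.val / 2 := Nat.cast_injective (sub_left_injective h)
    have h3 : i.val ≠ j.val := fun h => hij (Fin.ext h)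
    refine ⟨Fin.ext ?_, by omega⟩
    rw [hπ, piq_val]
    have := i.isLt
    split_ifs <;> omega
  have hsg : ∀ i j : Fin (2 * D), i.val % 2 ≠ j.val % 2 →
      sg K (sod (2 * D)) i * sg K (sod (2 * D)) j = -1 := by
    intro i j h
    rw [sg_mul, if_neg]
    unfold sod
    rw [decide_eq_decide]
    omega
  obtain ⟨f, hf⟩ := exists_f K (2 * D)
  refine ⟨r.pnt e (a0 + a1), r.finrank_stab_le he hev hod h1 h0 ?_ ?_ f ?_⟩
  · intro x hx i j hij h
    obtain ⟨h2, h3⟩ := hlam i j hij h
    have h4 := hθ x i j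
    have h5 : π j = i := by rw [← h2, hππ]
    rw [h2, h5, hsg i j h3, hx, map_neg, Matrix.neg_apply, neg_one_mul, neg_neg] at h4
    exact self_eq_neg.1 h4.symm
  · intro i j hij h h6
    obtain ⟨h2, h3⟩ := hlam i j hij h
    have h4 := hsg i j h3
    have h7 : sg K (sod (2 * D)) i = sg K (sod (2 * D)) j := h6
    rw [h7, sg_sq] at h4
    have h5 : (2 : K) = 0 := by linear_combination h4
    exact two_ne_zero h5
  · intro x d hd hfd
    refine hf d ?_ hfd
    have h2 := hA.tr0 x
    rwa [hd, Matrix.trace_diagonal] at h2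

variable {n : Type*} [Fintype n] [DecidableEq n]

/-- **type AI** -/
theorem quant_AI [IsAlgClosed K] (he : IsContraction θ e) {r : Rz K n θ} (hA : IsA r)
    {J J' : Matrix n n K} (hJ : J.transpose = J) (hJJ : J * J' = 1)
    (hθ : ∀ x, r.ρ (θ.hom x) = -(J' * (r.ρ x).transpose * J)) : Quant K k := by
  set N := Fintype.card n with hN
  have hc : Fintype.card (Fin N) = Fintype.card n := Fintype.card_fin N
  have hdet : J.det ≠ 0 := by
    intro h
    have h5 := congrArg Matrix.det hJJ
    rw [Matrix.det_mul, h, zero_mul, Matrix.det_one] at h5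
    exact zero_ne_one h5
  have hs : ∀ i : Fin N, sg K (fun _ : Fin N => false) (Fin.rev i) =
      1 * sg K (fun _ : Fin N => false) i := fun i => by
    rw [one_mul]
    rfl
  obtain ⟨P, Q, h1, h2, h3⟩ := exists_equiv_symm (m := Fin N) hc hJ
    (J' := jmat K Fin.rev fun _ => false) (by
      rw [jmat_transpose Fin.rev_rev hs, one_smul]) hdet (jmat_det Fin.rev_rev hs)
  obtain ⟨P', Q', h1', h2', h3'⟩ := exists_equiv_symm (m := Fin N) hc hJ
    (J' := 1) Matrix.transpose_one hdet (by rw [Matrix.det_one]; exact one_ne_zero)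
  obtain ⟨x0, hx0⟩ := AI_idx he (hA.conj P' Q' h1' h2' hc) (by
    intro x i j
    rw [conj_outer hJJ hθ h1' h2' (Matrix.mul_one 1) h3', Matrix.one_mul, Matrix.mul_one]
    rfl)
  have hθ1 := conj_outer hJJ hθ h1 h2 (jmat_inv Fin.rev_rev hs) h3
  have hdeg : ∀ (i : Fin (N - 1)) (A : Matrix (Fin N) (Fin N) K),
      (phi K false (i.val + 2) (Mo K (jmat K Fin.rev fun _ => false)
        ((1 : K) • jmat K Fin.rev fun _ => false) A)).natDegree ≤ i.val + 2 := fun i A =>
    phi_natDegree_le (Mo_natDegree _ _ A) false _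
  obtain ⟨p, p', hD⟩ := outer_data he (hA.conj P Q h1 h2 hc) hs (dl := fun _ => 1)
    (fun i j _ => by rw [if_pos rfl]) hθ1 false (fun i => i.val + 2)
    (fun i h0 h1 => by simp) hdeg hx0
  exact outer_quant he (hA.conj P Q h1 h2 hc) hθ1 false (fun i => i.val + 2)
    (fun i => by omega) hdeg hD

theorem sum_dl_AII (D m : ℕ) : ∑ l ∈ Ico 0 m, (if l + 1 = D then 0 else 1) =
    if 1 ≤ D ∧ D ≤ m then m - 1 else m := by
  induction m with
  | zero => simp
  | succ m ih =>
    rw [Finset.sum_Ico_succ_top (Nat.zero_le m), ih]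
    split_ifs <;> omega

/-- **type AII** -/
theorem quant_AII [IsAlgClosed K] (he : IsContraction θ e) {r : Rz K n θ} (hA : IsA r)
    {J J' : Matrix n n K} (hJ : J.transpose = -J) (hJJ : J * J' = 1)
    (hθ : ∀ x, r.ρ (θ.hom x) = -(J' * (r.ρ x).transpose * J)) : Quant K k := by
  have hdet : J.det ≠ 0 := by
    intro h
    have h5 := congrArg Matrix.det hJJ
    rw [Matrix.det_mul, h, zero_mul, Matrix.det_one] at h5
    exact zero_ne_one h5
  obtain ⟨D, ⟨eq⟩⟩ := exists_pairs hJ hdet
  have hcard : Fintype.card n = 2 * D := by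
    rw [← Fintype.card_congr eq, Fintype.card_prod, Fintype.card_fin, Fintype.card_fin, mul_comm]
  have hc : Fintype.card (Fin (2 * D)) = Fintype.card n := by rw [Fintype.card_fin, hcard]
  have hs : ∀ i : Fin (2 * D), sg K (fun i : Fin (2 * D) => decide (D ≤ i.val)) (Fin.rev i) =
      -1 * sg K (fun i : Fin (2 * D) => decide (D ≤ i.val)) i := by
    intro i
    unfold sg
    simp only [decide_eq_true_eq, Fin.val_rev]
    have := i.isLt
    by_cases h : D ≤ i.val
    · rw [if_neg (by omega), if_pos h, neg_mul_neg, one_mul]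
    · rw [if_pos (by omega), if_neg h, mul_one]
  have hs' := sg_sod (K := K) (D := D) le_rfl
  have hpp : ∀ i, piq (2 * D) D le_rfl (piq (2 * D) D le_rfl i) = i := fun i => piq_piq le_rfl i
  obtain ⟨P, Q, h1, h2, h3⟩ := exists_equiv_skew (m := Fin (2 * D)) hc hJ
    (J' := jmat K Fin.rev fun i : Fin (2 * D) => decide (D ≤ i.val)) (by
      rw [jmat_transpose Fin.rev_rev hs, neg_one_smul]) hdet (jmat_det Fin.rev_rev hs)
  obtain ⟨P', Q', h1', h2', h3'⟩ := exists_equiv_skew (m := Fin (2 * D)) hc hJ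
    (J' := jmat K (piq (2 * D) D le_rfl) (sod (2 * D))) (by
      rw [jmat_transpose hpp hs', neg_one_smul]) hdet (jmat_det hpp hs')
  obtain ⟨x0, hx0⟩ := AII_idx he (hA.conj P' Q' h1' h2' hc) (by
    intro x i j
    rw [conj_outer hJJ hθ h1' h2' (jmat_inv hpp hs') h3', Matrix.neg_apply, jmat_conj hpp hs'])
  have hθ1 := conj_outer hJJ hθ h1 h2 (jmat_inv Fin.rev_rev hs) h3
  have hdeg : ∀ (i : Fin (2 * D - 1)) (A : Matrix (Fin (2 * D)) (Fin (2 * D)) K),
      (phi K true (i.val + 2) (Mo K (jmat K Fin.rev fun i : Fin (2 * D) => decide (D ≤ i.val))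
        ((-1 : K) • jmat K Fin.rev fun i : Fin (2 * D) => decide (D ≤ i.val)) A)).natDegree ≤
      if i.val + 2 ≤ D then i.val + 2 else i.val := by
    intro i A
    split_ifs with h
    · exact phi_natDegree_le (Mo_natDegree _ _ A) true _
    · exact AII_deg (by rw [jmat_transpose Fin.rev_rev hs, neg_one_smul])
        (jmat_inv Fin.rev_rev hs) A (Fintype.card_fin _) (by omega)
  obtain ⟨p, p', hD⟩ := outer_data he (hA.conj P Q h1 h2 hc) hs
    (dl := fun l => if l + 1 = D then 0 else 1)
    (fun i j hij => by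
      by_cases h : i.val + 1 = D
      · rw [if_pos h, if_neg]
        rw [decide_eq_decide]
        omega
      · rw [if_neg h, if_pos]
        rw [decide_eq_decide]
        omega) hθ1 true (fun i => if i.val + 2 ≤ D then i.val + 2 else i.val)
    (fun i h0 h1 => by
      rw [sum_dl_AII]
      by_cases h : i.val + 2 ≤ D
      · rw [if_pos h, if_neg (by omega), if_pos]
        rw [decide_eq_decide]
        show D ≤ 0 ↔ D ≤ i.val + 1
        omega
      · rw [if_neg h, if_pos (by omega), if_neg, add_zero, Nat.add_sub_cancel]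
        rw [decide_eq_decide]
        show ¬ (D ≤ 0 ↔ D ≤ i.val + 1)
        omega) hdeg hx0
  exact outer_quant he (hA.conj P Q h1 h2 hc) hθ1 true _ (fun i => by
    split_ifs <;> omega) hdeg hD

end Pool.Agent.helper90.QTA
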