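import Mathlib
import Pool.Agent.helper90.QTA.OuterF
import Pool.Agent.helper49.QA.Swap

/-!
# Type A: the final forms
-/

set_option autoImplicit false
set_option linter.unusedSectionVars false

namespace Pool.Agent.helper90.QTA

open Pool.Agent.helper5.AS Finset Polynomial Pool.Agent.helper49.QA Pool.Agent.helper90.MF
open Pool.Agent.helper5.ASQ (Invol even oddc brk IsContraction)

variable {K : Type*} [Field K] [CharZero K] {g : Type*} [LieRing g] [LieAlgebra K g]

/-! ## the identity as an involution -/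

/-- the identity -/
def idI (K : Type*) [Field K] (g : Type*) [LieRing g] [LieAlgebra K g] : Invol K g :=
  ⟨LieHom.id, fun _ => rfl⟩

theorem even_idI (x : g) : even (idI K g) x = x := Pool.Agent.helper5.ASQ.even_of_fix _ rfl

theorem oddc_idI (x : g) : oddc (idI K g) x = 0 := Pool.Agent.helper5.ASQ.oddc_of_fix _ rfl

theorem con_idI : IsContraction (idI K g) (LinearEquiv.refl K g) := by
  intro x y
  show ⁅x, y⁆ = brk (idI K g) x y
  rw [brk, even_idI, even_idI, oddc_idI, oddc_idI, lie_zero, zero_lie, add_zero, add_zero]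

theorem scS_idI (F : Sy K g) : scS (idI K g) F = C F := by
  have h : scS (idI K g) = (CAlgHom : Sy K g →ₐ[Sy K g] (Sy K g)[X]).restrictScalars K := by
    refine SymmetricAlgebra.algHom_ext (LinearMap.ext fun x => ?_)
    show scS (idI K g) (ιS K g x) = C (ιS K g x)
    rw [scS_ι, even_idI, oddc_idI, map_zero, C_0, mul_zero, add_zero]
  rw [h]
  rfl

theorem smap_refl (F : Sy K g) : smap ((LinearEquiv.refl K g : g ≃ₗ[K] g) : g →ₗ[K] g) F = F := by
  have h : smap ((LinearEquiv.refl K g : g ≃ₗ[K] g) : g →ₗ[K] g) = AlgHom.id K (Sy K g) := by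
    refine SymmetricAlgebra.algHom_ext (LinearMap.ext fun x => ?_)
    exact smap_ι _ x
  rw [h]
  rfl

theorem gen_idI {n : Type*} [Fintype n] [DecidableEq n] (r : Rz K n (idI K g)) (c : Bool)
    (m : ℕ) : r.gen (LinearEquiv.refl K g) c m 0 = r.H c m := by
  rw [Rz.gen, scS_idI, coeff_C_zero, smap_refl]

variable {n : Type*} [Fintype n] [DecidableEq n]

/-- the realisation of `g` with the identity -/
def Rz.toId {θ : Invol K g} (r : Rz K n θ) : Rz K n (idI K g) where
  ρ := r.ρ
  Y := r.Y
  lie := r.lie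
  inj := r.inj
  pair := r.pair
  equi := r.equi
  inv := fun _ _ => rfl

theorem IsA.toId {θ : Invol K g} {r : Rz K n θ} (h : IsA r) : IsA (Rz.toId r) :=
  ⟨h.tr0, h.prj⟩

/-- the strong form for the special linear Lie algebra -/
theorem squant_id {r : Rz K n (idI K g)} (hA : IsA r) : SQuant K g := by
  set N := Fintype.card n with hN
  let eq : n ≃ Fin N := Fintype.equivFin n
  have hc : Fintype.card (Fin N) = Fintype.card n := Fintype.card_fin N
  have hPQ : (1 : Matrix n n K).submatrix eq.symm id * (1 : Matrix n n K).submatrix id eq.symm =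
      1 := by
    rw [← Matrix.submatrix_mul _ _ eq.symm id eq.symm Function.bijective_id, Matrix.mul_one,
      Matrix.submatrix_one_equiv]
  have hQP : (1 : Matrix n n K).submatrix id eq.symm * (1 : Matrix n n K).submatrix eq.symm id =
      1 := by
    rw [← Matrix.submatrix_mul _ _ id eq.symm id eq.symm.bijective, Matrix.mul_one,
      Matrix.submatrix_id_id]
  have hA' := hA.conj _ _ hPQ hQP hc
  set r' := r.conj _ _ hPQ hQP with hr'
  obtain ⟨x0, hx0⟩ := inner_idx (q := 0) (e := LinearEquiv.refl K g) con_idI hA' (Nat.zero_le N)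
    (fun x i j => by
      have h1 : ∀ i : Fin N, piq N 0 (Nat.zero_le N) i = i := fun i =>
        (piq_fixed (Nat.zero_le N) i).2 (Nat.zero_le _)
      rw [h1, h1]
      rfl)
  obtain ⟨p, p', hD⟩ := inner_data (q := 0) (e := LinearEquiv.refl K g) con_idI hA'
    (Nat.zero_le N) (fun x i j => by
      have h1 : ∀ i j : Fin N, sg K (parC N 0) i * sg K (parC N 0) j = 1 := by
        intro i j
        rw [sg_mul, if_pos]
        unfold parC
        rw [decide_eq_decide]
        omega
      rw [h1, one_mul]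
      rfl) hx0
  have h2 : ∀ i : Fin (N - 1), r'.gen (LinearEquiv.refl K g) false (i.val + 2)
      (2 * min ((i.val + 2) / 2) 0) = r'.H false (i.val + 2) := by
    intro i
    rw [Nat.min_zero, Nat.mul_zero, gen_idI]
  simp only [h2] at hD
  refine ⟨?_, N - 1, fun i => r'.H false (i.val + 2), fun i => i.val + 2, p, p', x0, CA r', hD,
    CA_comm hA', fun i => hasQ_H hA' false _⟩
  exact lin_con r' con_idI

/-! ## the realisation -/

section mk

variable (ρ : g →ₗ[K] Matrix n n K) (hρ : IsLieMap ρ) (hinj : Function.Injective ρ)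
  (htr : ∀ x, (ρ x).trace = 0) (hsurj : ∀ a : Matrix n n K, a.trace = 0 → ∃ x, ρ x = a)

/-- the projection to the matrices of trace zero -/
noncomputable def trp (K : Type*) [Field K] (n : Type*) [Fintype n] [DecidableEq n] :
    Matrix n n K →ₗ[K] Matrix n n K :=
  LinearMap.id - ((Fintype.card n : K)⁻¹ • Matrix.traceLinearMap n K K).smulRight 1

theorem trp_apply (a : Matrix n n K) :
    trp K n a = a - (a.trace / (Fintype.card n : K)) • (1 : Matrix n n K) := by
  show a - ((Fintype.card n : K)⁻¹ • Matrix.traceLinearMap n K K) a • (1 : Matrix n n K) = _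
  rw [LinearMap.smul_apply, Matrix.traceLinearMap_apply, smul_eq_mul, mul_comm, div_eq_mul_inv]

theorem trp_trace (a : Matrix n n K) : (trp K n a).trace = 0 := by
  rw [trp_apply, Matrix.trace_sub, Matrix.trace_smul, Matrix.trace_one, smul_eq_mul]
  by_cases h : (Fintype.card n : K) = 0
  · have h2 : Fintype.card n = 0 := Nat.cast_eq_zero.1 h
    have h3 : IsEmpty n := Fintype.card_eq_zero_iff.1 h2
    rw [h, mul_zero, sub_zero, Matrix.trace, Finset.univ_eq_empty, Finset.sum_empty]
  · rw [div_mul_cancel₀ _ h, sub_self]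

include hinj hsurj in
theorem exists_Y : ∃ Y : Matrix n n K →ₗ[K] g,
    ∀ a, ρ (Y a) = a - (a.trace / (Fintype.card n : K)) • (1 : Matrix n n K) := by
  obtain ⟨f, hf⟩ := LinearMap.exists_leftInverse_of_injective ρ (LinearMap.ker_eq_bot.2 hinj)
  refine ⟨f ∘ₗ trp K n, fun a => ?_⟩
  obtain ⟨x, hx⟩ := hsurj (trp K n a) (trp_trace a)
  rw [← trp_apply, LinearMap.comp_apply, ← hx]
  exact congrArg ρ (congrArg (fun F : g →ₗ[K] g => F x) hf)

include hρ hinj htr hsurj in
/-- the realisation of type A -/
theorem exists_rz {θ : Invol K g}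
    (hinv : ∀ x y, (ρ (θ.hom x) * ρ (θ.hom y)).trace = (ρ x * ρ y).trace) :
    ∃ r : Rz K n θ, IsA r ∧ r.ρ = ρ := by
  obtain ⟨Y, hY⟩ := exists_Y ρ hinj hsurj
  refine ⟨{ ρ := ρ, Y := Y, lie := hρ, inj := hinj, pair := ?_, equi := ?_, inv := hinv },
    ⟨htr, hY⟩, rfl⟩
  · intro x a
    rw [hY, Matrix.mul_sub, Matrix.trace_sub, Matrix.mul_smul, Matrix.mul_one,
      Matrix.trace_smul, htr, smul_zero, sub_zero]
  · intro x a
    apply hinj
    rw [hρ, hY, hY, Matrix.mul_sub, Matrix.sub_mul, Matrix.mul_smul, Matrix.smul_mul,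
      Matrix.mul_one, Matrix.one_mul, Matrix.trace_sub, Matrix.trace_mul_comm, sub_self, zero_div,
      zero_smul, sub_zero]
    abel

end mk

/-! ## normalisation of the matrices -/

/-- a matrix commuting with the matrices of trace zero is a scalar -/
theorem scalar_of_comm {B : Matrix n n K}
    (h : ∀ a : Matrix n n K, a.trace = 0 → B * a = a * B) : ∃ c : K, B = c • 1 := by
  have h1 : B ∈ Set.range (Matrix.scalar n) := by
    refine Matrix.mem_range_scalar_of_commute_single fun i j hij => ?_
    exact (h _ (Matrix.trace_single_eq_of_ne _ _ _ hij)).symm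
  obtain ⟨c, hc⟩ := h1
  refine ⟨c, ?_⟩
  rw [← hc, Matrix.scalar_apply, Matrix.smul_one_eq_diagonal]

variable {θ : Invol K g} {k : Type*} [LieRing k] [LieAlgebra K k] {e : g ≃ₗ[K] k}

/-- **type AIII**, an arbitrary invertible matrix `S` -/
theorem quant_S [IsAlgClosed K] (he : IsContraction θ e) {r : Rz K n θ} (hA : IsA r)
    {S S' : Matrix n n K} (hS : S * S' = 1)
    (hθ : ∀ x, r.ρ (θ.hom x) = S * r.ρ x * S') : Quant K k := by
  rcases isEmpty_or_nonempty n with hn | hn
  · refine quant_inner he hA (S := S) (Subsingleton.elim _ _) fun x => Subsingleton.elim _ _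
  have hS' : S' * S = 1 := mul_eq_one_comm.1 hS
  obtain ⟨c, hc⟩ := scalar_of_comm (B := S * S) (by
    intro a ha
    have h1 := hA.of_tr ha
    have h2 := hθ (θ.hom (r.Y a))
    rw [θ.hom_hom, hθ, h1] at h2
    calc S * S * a = S * (S * a * S') * S' * (S * S) := by
          simp only [Matrix.mul_assoc]
          rw [← Matrix.mul_assoc S' S S, hS', Matrix.one_mul, hS', Matrix.mul_one]
      _ = a * (S * S) := by rw [← h2])
  have hc0 : c ≠ 0 := by
    intro h
    rw [h, zero_smul] at hc
    have h3 : (1 : Matrix n n K) = 0 := by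
      calc (1 : Matrix n n K) = S * (S * S') * S' := by rw [hS, Matrix.mul_one, hS]
        _ = (S * S) * (S' * S') := by simp only [Matrix.mul_assoc]
        _ = 0 := by rw [hc, Matrix.zero_mul]
    exact one_ne_zero h3
  obtain ⟨s, hs⟩ := IsAlgClosed.exists_pow_nat_eq c (n := 2) (by norm_num)
  have hs0 : s ≠ 0 := by
    rintro rfl
    rw [zero_pow two_ne_zero] at hs
    exact hc0 hs.symm
  refine quant_inner he hA (S := s⁻¹ • S) ?_ fun x => ?_
  · rw [Matrix.smul_mul, Matrix.mul_smul, hc, smul_smul, smul_smul, ← hs, pow_two]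
    have h4 : s⁻¹ * s⁻¹ * (s * s) = 1 := by
      field_simp
    rw [h4, one_smul]
  · have h5 : S = c • S' := by
      calc S = (S * S) * S' := by rw [Matrix.mul_assoc, hS, Matrix.mul_one]
        _ = c • S' := by rw [hc, Matrix.smul_mul, Matrix.one_mul]
    rw [hθ, Matrix.smul_mul, Matrix.smul_mul, Matrix.mul_smul]
    have h6 : S * r.ρ x * S' = c⁻¹ • (S * r.ρ x * S) := by
      conv_rhs => rw [h5, Matrix.mul_smul, ← h5]
      rw [smul_smul, inv_mul_cancel₀ hc0, one_smul]
    rw [h6, smul_smul, ← hs, pow_two, mul_inv]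

/-- **types AI and AII**, an arbitrary invertible matrix `J` -/
theorem quant_J [IsAlgClosed K] (he : IsContraction θ e) {r : Rz K n θ} (hA : IsA r)
    {J J' : Matrix n n K} (hJ : J * J' = 1)
    (hθ : ∀ x, r.ρ (θ.hom x) = -(J' * (r.ρ x).transpose * J)) : Quant K k := by
  rcases isEmpty_or_nonempty n with hn | hn
  · refine quant_AI he hA (J := J) (Subsingleton.elim _ _) hJ hθ
  have hJ' : J' * J = 1 := mul_eq_one_comm.1 hJ
  have ht : J.transpose * J'.transpose = 1 := by
    rw [← Matrix.transpose_mul, hJ', Matrix.transpose_one]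
  obtain ⟨c, hc⟩ := scalar_of_comm (B := J' * J.transpose) (by
    intro a ha
    have h1 := hA.of_tr ha
    have h2 := hθ (θ.hom (r.Y a))
    rw [θ.hom_hom, hθ, h1, Matrix.transpose_neg, Matrix.mul_neg, Matrix.neg_mul, neg_neg,
      Matrix.transpose_mul, Matrix.transpose_mul, Matrix.transpose_transpose] at h2
    have h3 : J'.transpose * J * (J' * J.transpose) = 1 := by
      calc J'.transpose * J * (J' * J.transpose) = J'.transpose * (J * J') * J.transpose := by
            simp only [Matrix.mul_assoc]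
        _ = 1 := by rw [hJ, Matrix.mul_one, mul_eq_one_comm.1 ht]
    calc J' * J.transpose * a = J' * J.transpose * a * (J'.transpose * J * (J' * J.transpose)) := by
          rw [h3, Matrix.mul_one]
      _ = (J' * (J.transpose * (a * J'.transpose)) * J) * (J' * J.transpose) := by
          simp only [Matrix.mul_assoc]
      _ = a * (J' * J.transpose) := by rw [← h2])
  have hJt : J.transpose = c • J := by
    calc J.transpose = J * (J' * J.transpose) := by
          rw [← Matrix.mul_assoc, hJ, Matrix.one_mul]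
      _ = c • J := by rw [hc, Matrix.mul_smul, Matrix.mul_one]
  have hJ0 : J ≠ 0 := by
    rintro rfl
    rw [Matrix.zero_mul] at hJ
    exact zero_ne_one hJ
  have hcc : c * c = 1 := by
    have h4 : J = (c * c) • J := by
      conv_lhs => rw [← Matrix.transpose_transpose J, hJt, Matrix.transpose_smul, hJt, smul_smul]
    have h5 : (c * c - 1) • J = 0 := by rw [sub_smul, one_smul, ← h4, sub_self]
    rcases smul_eq_zero.1 h5 with h6 | h6
    · exact sub_eq_zero.1 h6
    · exact absurd h6 hJ0
  rcases mul_self_eq_one_iff.1 hcc with rfl | rfl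
  · exact quant_AI he hA (by rw [hJt, one_smul]) hJ hθ
  · exact quant_AII he hA (by rw [hJt, neg_one_smul]) hJ hθ

section final

variable (ρ : g →ₗ[K] Matrix n n K) (hρ : IsLieMap ρ) (hinj : Function.Injective ρ)
  (htr : ∀ x, (ρ x).trace = 0) (hsurj : ∀ a : Matrix n n K, a.trace = 0 → ∃ x, ρ x = a)

include hρ hinj htr hsurj

/-- **all the contractions of type A** -/
theorem quant_A [IsAlgClosed K] (he : IsContraction θ e)
    (hθ : (∃ S S' : Matrix n n K, S * S' = 1 ∧ ∀ x, ρ (θ.hom x) = S * ρ x * S') ∨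
      (∃ J J' : Matrix n n K, J * J' = 1 ∧ ∀ x, ρ (θ.hom x) = -(J' * (ρ x).transpose * J))) :
    Quant K k := by
  rcases hθ with ⟨S, S', hS, hθ⟩ | ⟨J, J', hJ, hθ⟩
  · have hS' : S' * S = 1 := mul_eq_one_comm.1 hS
    obtain ⟨r, hA, hr⟩ := exists_rz ρ hρ hinj htr hsurj (θ := θ) (by
      intro x y
      rw [hθ, hθ]
      calc (S * ρ x * S' * (S * ρ y * S')).trace = (S * (ρ x * (S' * S) * ρ y * S')).trace := by
            simp only [Matrix.mul_assoc]
        _ = (ρ x * ρ y * (S' * S)).trace := by
            rw [hS', Matrix.mul_one, Matrix.mul_one, Matrix.trace_mul_comm, Matrix.mul_assoc, hS',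
              Matrix.mul_one]
        _ = _ := by rw [hS', Matrix.mul_one])
    refine quant_S he hA hS fun x => ?_
    rw [hr]
    exact hθ x
  · have hJ' : J' * J = 1 := mul_eq_one_comm.1 hJ
    obtain ⟨r, hA, hr⟩ := exists_rz ρ hρ hinj htr hsurj (θ := θ) (by
      intro x y
      rw [hθ, hθ, Matrix.neg_mul, Matrix.mul_neg, neg_neg]
      calc (J' * (ρ x).transpose * J * (J' * (ρ y).transpose * J)).trace =
            (J' * ((ρ x).transpose * (J * J') * (ρ y).transpose * J)).trace := by
            simp only [Matrix.mul_assoc]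
        _ = ((ρ x).transpose * (ρ y).transpose).trace := by
            rw [hJ, Matrix.mul_one, Matrix.trace_mul_comm, Matrix.mul_assoc, hJ, Matrix.mul_one]
        _ = (ρ x * ρ y).trace := by
            rw [← Matrix.transpose_mul, Matrix.trace_transpose, Matrix.trace_mul_comm])
    refine quant_J he hA hJ fun x => ?_
    rw [hr]
    exact hθ x

/-- **the strong form for type A** (for the Takiff algebras) -/
theorem squant_A : SQuant K g := by
  obtain ⟨r, hA, hr⟩ := exists_rz ρ hρ hinj htr hsurj (θ := idI K g) (fun _ _ => rfl)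
  exact squant_id hA

end final

end Pool.Agent.helper90.QTA
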