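import Mathlib
import Pool.Agent.helper90.QTA.Final
import Pool.Agent.helper49.QA.JForm
import Pool.Agent.helper49.QA.SQ

/-!
# Type A: the output in the common format
-/

set_option autoImplicit false

namespace Pool.Agent.helper90.QTA

open Pool.Agent.helper5.AS Pool.Agent.helper49.QA
open Pool.Agent.helper5.ASQ (Invol even oddc brk IsContraction)

variable {K : Type*} [Field K] [CharZero K] {n : Type*} [Fintype n] [DecidableEq n]
  {g : Type*} [LieRing g] [LieAlgebra K g] {θ : Invol K g}
  {k : Type*} [LieRing k] [LieAlgebra K k] {e : g ≃ₗ[K] k}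

theorem isA_of {r : Rz K n θ} (h : r.IsA) : IsA r := ⟨h.trace_zero, h⟩

/-- type AIII -/
theorem quant_A_inner (he : IsContraction θ e) {r : Rz K n θ} (h : r.IsA) {S : Matrix n n K}
    (hS : S * S = 1) (hθ : r.IsS S) : Quant K k := by
  refine quant_inner he (isA_of h) hS fun x => ?_
  rw [← hθ x, Matrix.mul_assoc, hS, Matrix.mul_one]

/-- types AI and AII -/
theorem quant_A_outer [IsAlgClosed K] (he : IsContraction θ e) {r : Rz K n θ} (h : r.IsA)
    {J : Matrix n n K} (hd : J.det ≠ 0) (hθ : r.IsO J) : Quant K k :=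
  quant_J he (isA_of h) (Matrix.mul_nonsing_inv J (isUnit_iff_ne_zero.2 hd)) hθ

/-- the strong property for the special linear Lie algebra, for the trivial involution -/
theorem squant_A_rz {r : Rz K n (Pool.Agent.helper49.QA.idI K g)} (h : r.IsA) : SQuant K g :=
  squant_id (r := Rz.toId r) ((isA_of h).toId)

end Pool.Agent.helper90.QTA
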